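import Pool.Agent.R575.WC.Words

/-!
The problem of finding diagonal functions for equivalence relations: core of the argument.
-/

namespace Pool.Agent.R575.DG

open Pool.Agent.R575.WC Filter

/-- the relation enumerated by `u`: the number `⟨x, y⟩ + 1` occurs in `u` -/
def Rl (u : Bai) (x y : ℕ) : Prop := ∃ n, u n = Nat.pair x y + 1

/-- The problem `DIAG`: `u` enumerates an equivalence relation on `ℕ` with at least two classes,
and `g` is a diagonal function for it. -/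
def DIAG : Prob := fun u g =>
  Equivalence (Rl u) ∧ (∃ x y, ¬ Rl u x y) ∧ ∀ x, ¬ Rl u (g x) x

/-- `p` enumerates, for every `e`, at most one element of `{0, ..., k - 1}` (the number
`⟨e, i⟩ + 1` occurs in `p`). -/
def Val (k : ℕ) (p : Bai) : Prop :=
  ∀ e i j, i < k → j < k → Rl p e i → Rl p e j → i = j

noncomputable section

/-- the list with number `e` -/
def dec (e : ℕ) : List ℕ := (Encodable.decode (α := List ℕ) e).getD []

theorem dec_surj (L : List ℕ) : dec (Encodable.encode L) = L := by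
  simp [dec]

/-- every further development of the equivalence relation leaves a partial diagonal function for
which the answer to question `e` is `i` -/
def Cond (k : ℕ) (A : List ℕ → List ℕ) (Θ : List ℕ → List ℕ → List ℕ) (w : List ℕ) (e i : ℕ) :
    Prop :=
  i < k ∧ ∀ c : ℕ → Option (Fin (dec e).length),
    (∀ x j, Nat.pair x ((dec e).get j) + 1 ∈ A w → c x = some j) →
    ∃ σ : List ℕ, (∀ x (hx : x < σ.length), ∃ j, σ[x] = (dec e).get j ∧ c x ≠ some j) ∧
      (Θ w σ)[e]? = some i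

open Classical in
/-- the next value of the instance -/
def nxt (k : ℕ) (A : List ℕ → List ℕ) (Θ : List ℕ → List ℕ → List ℕ) (w : List ℕ) : ℕ :=
  if h : (∀ i, Nat.pair (Nat.unpair w.length).1 i + 1 ∉ w) ∧
      ∃ i, Cond k A Θ w (Nat.unpair w.length).1 i then
    Nat.pair (Nat.unpair w.length).1 (Classical.choose h.2) + 1 else 0

/-- the finite parts of the instance -/
def ws (k : ℕ) (A : List ℕ → List ℕ) (Θ : List ℕ → List ℕ → List ℕ) : ℕ → List ℕ
  | 0 => []
  | n + 1 => ws k A Θ n ++ [nxt k A Θ (ws k A Θ n)]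

/-- the instance -/
def inst (k : ℕ) (A : List ℕ → List ℕ) (Θ : List ℕ → List ℕ → List ℕ) : Bai :=
  fun n => nxt k A Θ (ws k A Θ n)

theorem seg_inst (k : ℕ) (A : List ℕ → List ℕ) (Θ : List ℕ → List ℕ → List ℕ) (n : ℕ) :
    seg (inst k A Θ) n = ws k A Θ n := by
  induction n with
  | zero => rfl
  | succ n ih => rw [seg_succ, ih]; rfl

theorem mem_seg {p : Bai} {n a : ℕ} : a ∈ seg p n ↔ ∃ m < n, p m = a := by
  simp [seg]

theorem inst_spec {k : ℕ} {A : List ℕ → List ℕ} {Θ : List ℕ → List ℕ → List ℕ} {n e i : ℕ}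
    (h : inst k A Θ n = Nat.pair e i + 1) :
    Cond k A Θ (seg (inst k A Θ) n) e i ∧ ∀ j, Nat.pair e j + 1 ∉ seg (inst k A Θ) n := by
  rw [seg_inst]
  have hl : (ws k A Θ n).length = n := by rw [← seg_inst]; simp
  unfold inst nxt at h
  split at h
  · rename_i hc
    have h1 : Nat.pair (Nat.unpair (ws k A Θ n).length).1 (Classical.choose hc.2) =
        Nat.pair e i := by omega
    obtain ⟨h2, h3⟩ := Nat.pair_eq_pair.1 h1
    have h4 := Classical.choose_spec hc.2
    have h5 := hc.1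
    rw [h3] at h4
    rw [h2] at h4 h5
    exact ⟨h4, h5⟩
  · simp at h

theorem inst_val (k : ℕ) (A : List ℕ → List ℕ) (Θ : List ℕ → List ℕ → List ℕ) :
    Val k (inst k A Θ) := by
  have key : ∀ e i j n n', inst k A Θ n = Nat.pair e i + 1 → inst k A Θ n' = Nat.pair e j + 1 →
      n ≤ n' → i = j := by
    intro e i j n n' h1 h2 h
    rcases h.lt_or_eq with h3 | h3
    · exact absurd (mem_seg.2 ⟨n, h3, h1⟩) ((inst_spec h2).2 i)
    · subst h3
      have : Nat.pair e i = Nat.pair e j := by omega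
      exact (Nat.pair_eq_pair.1 this).2
  rintro e i j - - ⟨n, hn⟩ ⟨n', hn'⟩
  rcases le_total n n' with h | h
  · exact key e i j n n' hn hn' h
  · exact (key e j i n' n hn' hn h).symm

theorem inst_acts {k : ℕ} {A : List ℕ → List ℕ} {Θ : List ℕ → List ℕ → List ℕ} {e s0 : ℕ}
    (h : ∀ s ≥ s0, ∃ i, Cond k A Θ (seg (inst k A Θ) s) e i) :
    ∃ n i, inst k A Θ n = Nat.pair e i + 1 := by
  by_cases h1 : ∃ i, Nat.pair e i + 1 ∈ seg (inst k A Θ) (Nat.pair e s0)
  · obtain ⟨i, hi⟩ := h1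
    obtain ⟨m, -, hm⟩ := mem_seg.1 hi
    exact ⟨m, i, hm⟩
  · push Not at h1
    have h2 := h (Nat.pair e s0) (Nat.right_le_pair e s0)
    have hl : (ws k A Θ (Nat.pair e s0)).length = Nat.pair e s0 := by rw [← seg_inst]; simp
    rw [seg_inst] at h1 h2
    have h3 : (Nat.unpair (ws k A Θ (Nat.pair e s0)).length).1 = e := by
      rw [hl, Nat.unpair_pair]
    refine ⟨Nat.pair e s0, ?_⟩
    unfold inst nxt
    rw [dif_pos (by rw [h3]; exact ⟨h1, h2⟩)]
    exact ⟨_, congrArg (fun a => Nat.pair a _ + 1) h3⟩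

theorem Cond_mono {k : ℕ} {A : List ℕ → List ℕ} (hA : Incr A) {Θ : List ℕ → List ℕ → List ℕ}
    (hΘ : ∀ w w' σ, w <+: w' → Θ w σ <+: Θ w' σ) {w w' : List ℕ} (hw : w <+: w') {e i : ℕ}
    (h : Cond k A Θ w e i) : Cond k A Θ w' e i := by
  refine ⟨h.1, fun c hc => ?_⟩
  obtain ⟨σ, h1, h2⟩ := h.2 c (fun x j hx => hc x j ((hA _ _ hw).subset hx))
  refine ⟨σ, h1, ?_⟩
  obtain ⟨t, ht⟩ := hΘ w w' σ hw
  rw [← ht]
  rw [List.getElem?_eq_some_iff] at h2
  obtain ⟨h3, h4⟩ := h2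
  rw [List.getElem?_append_left h3, List.getElem?_eq_some_iff]
  exact ⟨h3, h4⟩

theorem beg_get {w : List ℕ} {r : Bai} (h : Beg w r) {e i : ℕ} (hi : w[e]? = some i) :
    r e = i := by
  rw [List.getElem?_eq_some_iff] at hi
  obtain ⟨h3, h4⟩ := hi
  rw [← h4]
  exact (Beg_iff.1 h e h3).symm

theorem mem_of_beg {w : List ℕ} {u : Bai} (h : Beg w u) {a : ℕ} (ha : a ∈ w) : ∃ n, u n = a := by
  have h1 : w = seg u w.length := h
  rw [h1] at ha
  obtain ⟨m, -, hm⟩ := mem_seg.1 ha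
  exact ⟨m, hm⟩

/-- the solution requirement of the reduction -/
def Sol (k : ℕ) (Θ : List ℕ → List ℕ → List ℕ) (p v r : Bai) : Prop :=
  (∀ w σ, Beg w p → Beg σ v → Beg (Θ w σ) r) ∧
    (∀ m, ∃ n, m ≤ (Θ (seg p n) (seg v n)).length) ∧ ∀ e, r e < k ∧ ¬ Rl p e (r e)

/-- an inequivalent element -/
theorem exists_ineq {u : Bai} (hE : Equivalence (Rl u)) (hn : ∃ x y, ¬ Rl u x y) (x : ℕ) :
    ∃ y, ¬ Rl u y x := by
  obtain ⟨a, b, hab⟩ := hn
  by_contra hcon
  push Not at hcon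
  exact hab (hE.trans (hcon a) (hE.symm (hcon b)))

theorem no_act {k : ℕ} {A : List ℕ → List ℕ} {Θ : List ℕ → List ℕ → List ℕ} {u : Bai}
    (hu : Maps A (inst k A Θ) u) (hE : Equivalence (Rl u)) (hn : ∃ x y, ¬ Rl u x y)
    (hsol : ∀ v, DIAG u v → ∃ r, Sol k Θ (inst k A Θ) v r) {e : ℕ}
    (hL : ∀ j j' : Fin (dec e).length, Rl u ((dec e).get j) ((dec e).get j') → j = j')
    {n i : ℕ} (h : inst k A Θ n = Nat.pair e i + 1) : False := by
  classical
  have hC := (inst_spec h).1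
  obtain ⟨c, hc⟩ : ∃ c : ℕ → Option (Fin (dec e).length),
      ∀ x j, c x = some j ↔ Rl u x ((dec e).get j) := by
    refine ⟨fun x => if h : ∃ j, Rl u x ((dec e).get j) then some (Classical.choose h) else none,
      fun x j => ?_⟩
    by_cases h1 : ∃ j, Rl u x ((dec e).get j)
    · simp only [dif_pos h1, Option.some.injEq]
      have h2 := Classical.choose_spec h1
      constructor
      · rintro rfl
        exact h2
      · intro h3
        exact hL _ _ (hE.trans (hE.symm h2) h3)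
    · simp only [dif_neg h1]
      constructor
      · intro h2
        cases h2
      · intro h2
        exact absurd ⟨j, h2⟩ h1
  obtain ⟨σ, h1, h2⟩ := hC.2 c (fun x j hx => (hc x j).2 (mem_of_beg (hu.1 n) hx))
  choose y hy using exists_ineq hE hn
  obtain ⟨v, hv⟩ : ∃ v : Bai, ∀ x, v x = if hx : x < σ.length then σ[x] else y x := ⟨_, fun _ => rfl⟩
  have hbv : Beg σ v := by
    rw [Beg_iff]
    intro x hx
    rw [hv, dif_pos hx]
  have hD : DIAG u v := by
    refine ⟨hE, hn, fun x => ?_⟩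
    rw [hv]
    by_cases hx : x < σ.length
    · rw [dif_pos hx]
      obtain ⟨j, hj1, hj2⟩ := h1 x hx
      rw [hj1]
      intro h3
      exact hj2 ((hc x j).2 (hE.symm h3))
    · rw [dif_neg hx]
      exact hy x
  obtain ⟨r, hr1, -, hr3⟩ := hsol v hD
  have h4 := beg_get (hr1 _ _ (Beg_seg _ n) hbv) h2
  have h5 := (hr3 e).2
  rw [h4] at h5
  exact h5 ⟨n, h⟩

theorem ultra_fin {α : Type*} [Finite α] (f : ℕ → α) (U : Ultrafilter ℕ) :
    ∃ a, ∀ᶠ s in (U : Filter ℕ), f s = a := by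
  by_contra hcon
  push Not at hcon
  have h1 : ∀ a, ∀ᶠ s in (U : Filter ℕ), f s ≠ a := hcon
  have h2 : ∀ᶠ s in (U : Filter ℕ), ∀ a, f s ≠ a := Filter.eventually_all.2 h1
  obtain ⟨s, hs⟩ := h2.exists
  exact hs _ rfl

theorem acts {k : ℕ} (hk : 0 < k) {A : List ℕ → List ℕ} (hA : Incr A)
    {Θ : List ℕ → List ℕ → List ℕ} (hΘ : ∀ w w' σ, w <+: w' → Θ w σ <+: Θ w' σ) {p u : Bai}
    (hu : Maps A p u) (hE : Equivalence (Rl u)) (hn : ∃ x y, ¬ Rl u x y)
    (hsol : ∀ v, DIAG u v → ∃ r, Sol k Θ p v r) {e : ℕ}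
    (hAV : ∀ (C : Fin k → Option (Fin (dec e).length)) (x : ℕ),
      (∀ j, Rl u x ((dec e).get j) → ∀ i, C i = some j) → ∃ j, ∀ i, C i ≠ some j) :
    ∃ s0, ∀ s ≥ s0, ∃ i, Cond k A Θ (seg p s) e i := by
  classical
  suffices h : ∃ s i, Cond k A Θ (seg p s) e i by
    obtain ⟨s, i, hs⟩ := h
    exact ⟨s, fun s' hs' => ⟨i, Cond_mono hA hΘ (seg_le p hs') hs⟩⟩
  by_contra hcon
  push Not at hcon
  have h1 : ∀ (i : Fin k) (s : ℕ), ∃ c : ℕ → Option (Fin (dec e).length),
      (∀ x j, Nat.pair x ((dec e).get j) + 1 ∈ A (seg p s) → c x = some j) ∧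
      ∀ σ : List ℕ, (∀ x (hx : x < σ.length), ∃ j, σ[x] = (dec e).get j ∧ c x ≠ some j) →
        (Θ (seg p s) σ)[e]? ≠ some (i : ℕ) := by
    intro i s
    have h2 := hcon s i
    unfold Cond at h2
    push Not at h2
    obtain ⟨c, hc1, hc2⟩ := h2 i.2
    exact ⟨c, hc1, hc2⟩
  choose c hc1 hc2 using h1
  obtain ⟨U, hU⟩ : ∃ U : Ultrafilter ℕ, (U : Filter ℕ) ≤ atTop :=
    ⟨Ultrafilter.of atTop, Ultrafilter.of_le _⟩
  have h2 : ∀ (i : Fin k) (x : ℕ), ∃ a, ∀ᶠ s in (U : Filter ℕ), c i s x = a :=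
    fun i x => ultra_fin (fun s => c i s x) U
  choose C hC using h2
  have h3 : ∀ x j, Rl u x ((dec e).get j) → ∀ i, C i x = some j := by
    rintro x j ⟨m, hm⟩ i
    obtain ⟨n0, hn0⟩ := hu.2 (m + 1)
    have h4 : ∀ᶠ s in (U : Filter ℕ), n0 ≤ s := hU (eventually_ge_atTop n0)
    obtain ⟨s, hs1, hs2⟩ := (h4.and (hC i x)).exists
    rw [← hs2]
    apply hc1
    have h5 : (A (seg p n0)) <+: A (seg p s) := hA _ _ (seg_le p hs1)
    apply h5.subset
    have h6 : A (seg p n0) = seg u (A (seg p n0)).length := hu.1 n0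
    rw [h6, mem_seg]
    exact ⟨m, by omega, hm⟩
  have h4 : ∀ x, ∃ j, ∀ i, C i x ≠ some j := fun x =>
    hAV (fun i => C i x) x (fun j hj i => h3 x j hj i)
  choose J hJ using h4
  have hD : DIAG u (fun x => (dec e).get (J x)) := by
    refine ⟨hE, hn, fun x hx => ?_⟩
    exact hJ x ⟨0, hk⟩ (h3 x (J x) (hE.symm hx) _)
  obtain ⟨r, hr1, hr2, hr3⟩ := hsol _ hD
  obtain ⟨n, hn'⟩ := hr2 (e + 1)
  have h5 : (Θ (seg p n) (seg (fun x => (dec e).get (J x)) n))[e]? = some (r e) := by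
    rw [List.getElem?_eq_some_iff]
    refine ⟨by omega, ?_⟩
    exact Beg_iff.1 (hr1 _ _ (Beg_seg p n) (Beg_seg _ n)) e (by omega)
  have h6 : ∀ᶠ s in (U : Filter ℕ), n ≤ s := hU (eventually_ge_atTop n)
  have h7 : ∀ᶠ s in (U : Filter ℕ), ∀ x : Fin n, c ⟨r e, (hr3 e).1⟩ s x = C ⟨r e, (hr3 e).1⟩ x :=
    Filter.eventually_all.2 fun x => hC _ _
  obtain ⟨s, hs1, hs2⟩ := (h6.and h7).exists
  refine hc2 ⟨r e, (hr3 e).1⟩ s (seg (fun x => (dec e).get (J x)) n) ?_ ?_
  · intro x hx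
    rw [seg_length] at hx
    refine ⟨J x, ?_, ?_⟩
    · rw [seg_getElem]
    · rw [hs2 ⟨x, hx⟩]
      exact hJ x _
  · obtain ⟨t, ht⟩ := hΘ _ _ (seg (fun x => (dec e).get (J x)) n) (seg_le p hs1)
    rw [← ht]
    rw [List.getElem?_eq_some_iff] at h5
    obtain ⟨h8, h9⟩ := h5
    rw [List.getElem?_append_left h8, List.getElem?_eq_some_iff]
    exact ⟨h8, h9⟩

theorem exists_list {k : ℕ} (hk : 2 ≤ k) {u : Bai} (hE : Equivalence (Rl u))
    (hn : ∃ x y, ¬ Rl u x y) : ∃ e,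
      (∀ j j' : Fin (dec e).length, Rl u ((dec e).get j) ((dec e).get j') → j = j') ∧
      (∀ (C : Fin k → Option (Fin (dec e).length)) (x : ℕ),
        (∀ j, Rl u x ((dec e).get j) → ∀ i, C i = some j) → ∃ j, ∀ i, C i ≠ some j) := by
  classical
  suffices h : ∃ L : List ℕ, (∀ j j' : Fin L.length, Rl u (L.get j) (L.get j') → j = j') ∧
      (∀ (C : Fin k → Option (Fin L.length)) (x : ℕ),
        (∀ j, Rl u x (L.get j) → ∀ i, C i = some j) → ∃ j, ∀ i, C i ≠ some j) by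
    obtain ⟨L, h1⟩ := h
    refine ⟨Encodable.encode L, ?_⟩
    rw [dec_surj]
    exact h1
  let P : ℕ → Prop := fun m => ∃ L : List ℕ, L.length = m ∧
    ∀ j j' : Fin L.length, Rl u (L.get j) (L.get j') → j = j'
  have hP2 : P 2 := by
    obtain ⟨a, b, hab⟩ := hn
    refine ⟨[a, b], rfl, ?_⟩
    intro j j' h
    fin_cases j <;> fin_cases j'
    · rfl
    · exact absurd h hab
    · exact absurd (hE.symm h) hab
    · rfl
  by_cases hk1 : P (k + 1)
  · obtain ⟨L, hL1, hL2⟩ := hk1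
    refine ⟨L, hL2, fun C x _ => ?_⟩
    by_contra hcon
    push Not at hcon
    choose f hf using hcon
    have hinj : Function.Injective f := by
      intro j j' h
      have h1 := hf j
      rw [h, hf j'] at h1
      exact (Option.some.inj h1).symm
    have := Fintype.card_le_of_injective f hinj
    rw [Fintype.card_fin, Fintype.card_fin] at this
    omega
  · obtain ⟨m, hm2, hPm, hPm1⟩ : ∃ m, 2 ≤ m ∧ P m ∧ ¬ P (m + 1) := by
      by_contra hcon
      push Not at hcon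
      have : ∀ m, 2 ≤ m → P m := by
        intro m hm
        induction m, hm using Nat.le_induction with
        | base => exact hP2
        | succ m hm ih => exact hcon m hm ih
      exact hk1 (this (k + 1) (by omega))
    obtain ⟨L, hL1, hL2⟩ := hPm
    refine ⟨L, hL2, fun C x hx => ?_⟩
    have h1 : ∃ j, Rl u x (L.get j) := by
      by_contra hcon
      push Not at hcon
      apply hPm1
      refine ⟨x :: L, by simp [hL1], ?_⟩
      intro j j' h
      refine Fin.cases ?_ (fun j => ?_) j (motive := fun j => Rl u ((x :: L).get j)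
        ((x :: L).get j') → j = j') h
      · refine Fin.cases (fun _ => rfl) (fun j' h => ?_) j' (motive := fun j' =>
          Rl u ((x :: L).get 0) ((x :: L).get j') → 0 = j')
        exact absurd h (hcon j')
      · refine Fin.cases (fun h => ?_) (fun j' h => ?_) j' (motive := fun j' =>
          Rl u ((x :: L).get j.succ) ((x :: L).get j') → j.succ = j')
        · exact absurd (hE.symm h) (hcon j)
        · rw [hL2 j j' h]
    obtain ⟨j, hj⟩ := h1
    have h2 := hx j hj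
    obtain ⟨j', hj'⟩ : ∃ j' : Fin L.length, j' ≠ j := by
      have : Nontrivial (Fin L.length) := by
        rw [hL1]
        exact Fin.nontrivial_iff_two_le.2 hm2
      exact exists_ne j
    refine ⟨j', fun i => ?_⟩
    rw [h2 i]
    intro h
    exact hj' (Option.some.inj h).symm

/-- There is no continuous reduction. -/
theorem core {k : ℕ} (hk : 2 ≤ k) {A : List ℕ → List ℕ} (hA : Incr A)
    {Θ : List ℕ → List ℕ → List ℕ} (hΘ : ∀ w w' σ, w <+: w' → Θ w σ <+: Θ w' σ)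
    (H : ∀ p, Val k p → ∃ u, Maps A p u ∧ (∃ v, DIAG u v) ∧
      ∀ v, DIAG u v → ∃ r, Sol k Θ p v r) : False := by
  obtain ⟨u, hu, ⟨v0, hv0⟩, hsol⟩ := H _ (inst_val k A Θ)
  obtain ⟨e, h1, h2⟩ := exists_list hk hv0.1 hv0.2.1
  obtain ⟨s0, hs0⟩ := acts (by omega) hA hΘ hu hv0.1 hv0.2.1 hsol h2
  obtain ⟨n, i, hn⟩ := inst_acts hs0
  exact no_act hu hv0.1 hv0.2.1 hsol h1 hn

end

end Pool.Agent.R575.DG
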