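import Pool.Agent.R575.DG.Str

/-!
`DNC_N` (the parallelization of all-or-co-unique choice on `ℕ`) is reducible to `DIAG`.
-/

namespace Pool.Agent.R575.DG

open Pool.Agent.R575.WC

/-- The parallelization of all-or-co-unique choice on `ℕ` (Weihrauch equivalent to `DNC_ℕ`). -/
def ACCN : Prob := fun p f =>
  (∀ e i j, Rl p e i → Rl p e j → i = j) ∧ ∀ e, ¬ Rl p e (f e)

/-- one step along an edge `2e — r` where `⟨e, r⟩ + 1` is enumerated -/
def st (p : Bai) (z c : ℕ) : ℕ :=
  if p (c / 2) = 0 then z
  else if c % 2 = 0 then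
    if z = 2 * (p (c / 2) - 1).unpair.1 then (p (c / 2) - 1).unpair.2 else z
  else
    if z = (p (c / 2) - 1).unpair.2 then 2 * (p (c / 2) - 1).unpair.1 else z

def F4 (p : Bai) : Bai := fun n =>
  Nat.pair n.unpair.1
    (((Encodable.decode (α := List ℕ) n.unpair.2).getD []).foldl (st p) n.unpair.1) + 1

theorem mem_le_enc {l : List ℕ} {c : ℕ} (h : c ∈ l) : c ≤ Encodable.encode l := by
  induction l with
  | nil => simp at h
  | cons a l ih =>
    rw [Encodable.encode_list_cons]
    rcases List.mem_cons.1 h with h | h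
    · subst h
      have := Nat.left_le_pair (Encodable.encode c) (Encodable.encode l)
      rw [Encodable.encode_nat] at this ⊢
      omega
    · have := ih h
      have := Nat.right_le_pair (Encodable.encode a) (Encodable.encode l)
      omega

theorem foldl_congr' {p q : Bai} {n : ℕ} (h : ∀ i ≤ n, p i = q i) (l : List ℕ)
    (hl : ∀ c ∈ l, c ≤ n) (x : ℕ) : l.foldl (st p) x = l.foldl (st q) x := by
  induction l generalizing x with
  | nil => rfl
  | cons a l ih =>
    rw [List.foldl_cons, List.foldl_cons]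
    have h1 : st p x a = st q x a := by
      have h2 := hl a (by simp)
      unfold st
      rw [h (a / 2) (by omega)]
    rw [h1]
    exact ih (fun c hc => hl c (by simp [hc])) _

theorem F4_loc : Loc F4 := by
  intro p q n h
  have a2 : n.unpair.2 ≤ n := Nat.unpair_right_le n
  unfold F4
  rw [foldl_congr' h]
  intro c hc
  cases hd : Encodable.decode (α := List ℕ) n.unpair.2 with
  | none =>
    rw [hd] at hc
    simp at hc
  | some l =>
    rw [hd] at hc
    simp only [Option.getD_some] at hc
    have h1 := mem_le_enc hc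
    obtain ⟨a, ha, ha'⟩ := Denumerable.decode_inv (α := List ℕ) n.unpair.2
    rw [hd, Option.mem_some_iff] at ha
    subst ha
    omega

theorem Rl_F4 {p : Bai} {x y : ℕ} : Rl (F4 p) x y ↔ ∃ l : List ℕ, l.foldl (st p) x = y := by
  constructor
  · rintro ⟨n, hn⟩
    unfold F4 at hn
    have h1 : Nat.pair n.unpair.1
      (((Encodable.decode (α := List ℕ) n.unpair.2).getD []).foldl (st p) n.unpair.1) =
        Nat.pair x y := by omega
    obtain ⟨h2, h3⟩ := Nat.pair_eq_pair.1 h1
    rw [h2] at h3
    exact ⟨_, h3⟩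
  · rintro ⟨l, hl⟩
    refine ⟨Nat.pair x (Encodable.encode l), ?_⟩
    unfold F4
    rw [Nat.unpair_pair]
    simp only [Encodable.encodek, Option.getD_some]
    rw [hl]

theorem st_rev (p : Bai) (z c : ℕ) : ∃ l : List ℕ, l.foldl (st p) (st p z c) = z := by
  by_cases h0 : p (c / 2) = 0
  · refine ⟨[], ?_⟩
    simp [st, h0]
  · by_cases h1 : c % 2 = 0
    · by_cases h2 : z = 2 * (p (c / 2) - 1).unpair.1
      · refine ⟨[c + 1], ?_⟩
        have h3 : (c + 1) / 2 = c / 2 := by omega
        have h4 : ¬ (c + 1) % 2 = 0 := by omega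
        have h5 : st p z c = (p (c / 2) - 1).unpair.2 := by
          unfold st
          rw [if_neg h0, if_pos h1, if_pos h2]
        rw [h5, List.foldl_cons, List.foldl_nil]
        unfold st
        rw [h3, if_neg h0, if_neg h4, if_pos rfl]
        exact h2.symm
      · refine ⟨[], ?_⟩
        rw [List.foldl_nil]
        unfold st
        rw [if_neg h0, if_pos h1, if_neg h2]
    · by_cases h2 : z = (p (c / 2) - 1).unpair.2
      · refine ⟨[c - 1], ?_⟩
        have h3 : (c - 1) / 2 = c / 2 := by omega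
        have h4 : (c - 1) % 2 = 0 := by omega
        have h5 : st p z c = 2 * (p (c / 2) - 1).unpair.1 := by
          unfold st
          rw [if_neg h0, if_neg h1, if_pos h2]
        rw [h5, List.foldl_cons, List.foldl_nil]
        unfold st
        rw [h3, if_neg h0, if_pos h4, if_pos rfl]
        exact h2.symm
      · refine ⟨[], ?_⟩
        rw [List.foldl_nil]
        unfold st
        rw [if_neg h0, if_neg h1, if_neg h2]

theorem F4_equiv (p : Bai) : Equivalence (Rl (F4 p)) := by
  constructor
  · intro x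
    rw [Rl_F4]
    exact ⟨[], rfl⟩
  · intro x y h
    rw [Rl_F4] at h ⊢
    obtain ⟨l, hl⟩ := h
    induction l generalizing x with
    | nil => exact ⟨[], hl.symm⟩
    | cons a l ih =>
      rw [List.foldl_cons] at hl
      obtain ⟨l1, h1⟩ := ih hl
      obtain ⟨l2, h2⟩ := st_rev p x a
      refine ⟨l1 ++ l2, ?_⟩
      rw [List.foldl_append, h1, h2]
  · intro x y z h h'
    rw [Rl_F4] at h h' ⊢
    obtain ⟨l, hl⟩ := h
    obtain ⟨l', hl'⟩ := h'
    refine ⟨l ++ l', ?_⟩
    rw [List.foldl_append, hl, hl']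

open Classical in
/-- the forward map -/
noncomputable def fw (p : Bai) (x : ℕ) : ℕ :=
  if h : x % 2 = 0 ∧ ∃ r, Rl p (x / 2) r then Classical.choose h.2 else x

theorem fw_odd {p : Bai} {x : ℕ} (h : x % 2 = 1) : fw p x = x := by
  unfold fw
  rw [dif_neg]
  omega

theorem fw_even {p : Bai} (hp : ∀ e i j, Rl p e i → Rl p e j → i = j) {e r : ℕ}
    (h : Rl p e r) : fw p (2 * e) = r := by
  unfold fw
  have h1 : 2 * e / 2 = e := by omega
  rw [dif_pos ⟨by omega, r, by rw [h1]; exact h⟩]
  exact hp (2 * e / 2) _ r (Classical.choose_spec (p := fun r => Rl p (2 * e / 2) r)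
    ⟨r, by rw [h1]; exact h⟩) (by rw [h1]; exact h)

theorem st_cases (p : Bai) (hp : ∀ e i j, Rl p e i → Rl p e j → i = j) (z c : ℕ) :
    st p z c = z ∨ st p z c = fw p z ∨ z = fw p (st p z c) := by
  by_cases h0 : p (c / 2) = 0
  · left
    simp [st, h0]
  · have hr : Rl p (p (c / 2) - 1).unpair.1 (p (c / 2) - 1).unpair.2 :=
      ⟨c / 2, by rw [Nat.pair_unpair]; omega⟩
    have hf := fw_even hp hr
    by_cases h1 : c % 2 = 0
    · by_cases h2 : z = 2 * (p (c / 2) - 1).unpair.1
      · right; left
        have h5 : st p z c = (p (c / 2) - 1).unpair.2 := by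
          unfold st
          rw [if_neg h0, if_pos h1, if_pos h2]
        rw [h5, h2, hf]
      · left
        unfold st
        rw [if_neg h0, if_pos h1, if_neg h2]
    · by_cases h2 : z = (p (c / 2) - 1).unpair.2
      · right; right
        have h5 : st p z c = 2 * (p (c / 2) - 1).unpair.1 := by
          unfold st
          rw [if_neg h0, if_neg h1, if_pos h2]
        rw [h5, hf, h2]
      · left
        unfold st
        rw [if_neg h0, if_neg h1, if_neg h2]

theorem meet {p : Bai} (hp : ∀ e i j, Rl p e i → Rl p e j → i = j) {x y : ℕ}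
    (h : Rl (F4 p) x y) : ∃ a b, (fw p)^[a] x = (fw p)^[b] y := by
  rw [Rl_F4] at h
  obtain ⟨l, hl⟩ := h
  induction l generalizing x with
  | nil => exact ⟨0, 0, hl⟩
  | cons c l ih =>
    rw [List.foldl_cons] at hl
    obtain ⟨a, b, h1⟩ := ih hl
    rcases st_cases p hp x c with h2 | h2 | h2
    · rw [h2] at h1
      exact ⟨a, b, h1⟩
    · rw [h2] at h1
      exact ⟨a + 1, b, h1⟩
    · refine ⟨a, b + 1, ?_⟩
      rw [h2, ← Function.iterate_succ_apply, Function.iterate_succ_apply', h1,
        Function.iterate_succ_apply']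

theorem not_13 {p : Bai} (hp : ∀ e i j, Rl p e i → Rl p e j → i = j) : ¬ Rl (F4 p) 1 3 := by
  intro h
  obtain ⟨a, b, h1⟩ := meet hp h
  rw [Function.iterate_fixed (fw_odd (p := p) (x := 1) rfl),
    Function.iterate_fixed (fw_odd (p := p) (x := 3) rfl)] at h1
  omega

theorem F4_prim : Primrec₂ fun (w : List ℕ) (n : ℕ) => F4 (fun i => w.getD i 0) n := by
  have e1 : Primrec fun x : List ℕ × ℕ => x.2.unpair.1 :=
    Primrec.fst.comp (Primrec.unpair.comp Primrec.snd)
  have e2 : Primrec fun x : List ℕ × ℕ => x.2.unpair.2 :=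
    Primrec.snd.comp (Primrec.unpair.comp Primrec.snd)
  have e3 : Primrec fun x : List ℕ × ℕ =>
      (Encodable.decode (α := List ℕ) x.2.unpair.2).getD [] :=
    Primrec.option_getD.comp (Primrec.decode.comp e2) (Primrec.const [])
  have hs : Primrec₂ fun (x : List ℕ × ℕ) (y : ℕ × ℕ) =>
      st (fun i => x.1.getD i 0) y.1 y.2 := by
    have g0 : Primrec fun q : (List ℕ × ℕ) × (ℕ × ℕ) => q.1.1.getD (q.2.2 / 2) 0 :=
      (Primrec.list_getD 0).comp (Primrec.fst.comp Primrec.fst)
        (Primrec.nat_div.comp (Primrec.snd.comp Primrec.snd) (Primrec.const 2))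
    have gu := Primrec.unpair.comp (Primrec.nat_sub.comp g0 (Primrec.const 1))
    have g1 := Primrec.nat_mul.comp (Primrec.const 2) (Primrec.fst.comp gu)
    have g2 := Primrec.snd.comp gu
    have gz : Primrec fun q : (List ℕ × ℕ) × (ℕ × ℕ) => q.2.1 := Primrec.fst.comp Primrec.snd
    have gm := Primrec.nat_mod.comp ((Primrec.snd.comp Primrec.snd :
      Primrec fun q : (List ℕ × ℕ) × (ℕ × ℕ) => q.2.2)) (Primrec.const 2)
    exact Primrec.ite (Primrec.eq.comp g0 (Primrec.const 0)) gz
      (Primrec.ite (Primrec.eq.comp gm (Primrec.const 0))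
        (Primrec.ite (Primrec.eq.comp gz g1) g2 gz)
        (Primrec.ite (Primrec.eq.comp gz g2) g1 gz))
  exact Primrec.succ.comp (Primrec₂.natPair.comp e1 (Primrec.list_foldl e3 e1 hs))

/-- the entries at the positions `4n + 1` -/
def fours (w : List ℕ) : List ℕ := seg (fun n => w.getD (4 * n + 1) 0) ((w.length + 2) / 4)

theorem fours_beg {w : List ℕ} {f : Bai} (h : Beg w f) :
    fours w = seg (fun n => f (4 * n + 1)) ((w.length + 2) / 4) := by
  unfold fours
  apply seg_ext
  intro i hi
  show w.getD (4 * i + 1) 0 = f (4 * i + 1)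
  rw [List.getD_eq_getElem _ _ (by omega)]
  exact Beg_iff.1 h _ _

theorem fours_incr : Incr fours := by
  intro u v huv
  have h1 := exists_beg v
  rw [fours_beg (Beg_of_pre huv h1), fours_beg h1]
  apply seg_le
  have := huv.length_le
  omega

theorem Maps_fours (f : Bai) : Maps fours f (fun n => f (4 * n + 1)) := by
  constructor
  · intro n
    rw [fours_beg (Beg_seg f n)]
    exact Beg_seg _ _
  · intro k
    refine ⟨4 * k, ?_⟩
    rw [fours_beg (Beg_seg f _), seg_length, seg_length]
    omega

theorem fours_computable : Computable fours := by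
  apply Primrec.to_comp
  unfold fours seg
  refine Primrec.list_map (Primrec.list_range.comp ?_) ?_
  · exact Primrec.nat_div.comp (Primrec.nat_add.comp Primrec.list_length (Primrec.const 2))
      (Primrec.const 4)
  · exact (Primrec.list_getD 0).comp Primrec.fst (Primrec.nat_add.comp
      (Primrec.nat_mul.comp (Primrec.const 4) Primrec.snd) (Primrec.const 1))

/-- `DNC_ℕ` is reducible to `DIAG`. -/
theorem ACCN_le : WRed ACCN DIAG := by
  classical
  refine ⟨W F4, fours, W_computable F4_prim, fours_computable, W_incr F4_loc, fours_incr, ?_⟩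
  rintro p ⟨f, hp, -⟩
  have hE := F4_equiv p
  have h13 := not_13 hp
  refine ⟨F4 p, Maps_W F4_loc p, ?_, ?_⟩
  · refine ⟨fun x => if Rl (F4 p) x 1 then 3 else 1, hE, ⟨1, 3, h13⟩, fun x => ?_⟩
    show ¬ Rl (F4 p) (if Rl (F4 p) x 1 then 3 else 1) x
    by_cases h : Rl (F4 p) x 1
    · rw [if_pos h]
      exact fun h1 => h13 (hE.symm (hE.trans h1 h))
    · rw [if_neg h]
      exact fun h1 => h (hE.symm h1)
  · intro g hg
    refine ⟨_, Maps_fours _, hp, fun e => ?_⟩
    have h1 : pair p g (4 * e + 1) = g (2 * e) := by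
      unfold pair
      rw [if_neg (by omega)]
      congr 1
      omega
    show ¬ Rl p e (pair p g (4 * e + 1))
    rw [h1]
    rintro ⟨n, hn⟩
    apply hg.2.2 (2 * e)
    apply hE.symm
    rw [Rl_F4]
    refine ⟨[2 * n], ?_⟩
    rw [List.foldl_cons, List.foldl_nil]
    unfold st
    have h2 : 2 * n / 2 = n := by omega
    rw [h2, hn]
    simp

end Pool.Agent.R575.DG
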