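import Pool.Agent.R575.DG.Core

/-!
Weak König's lemma and the problems `DNC_k` are Weihrauch incomparable with the problem of finding
diagonal functions for equivalence relations.
-/

namespace Pool.Agent.R575.DG

open Pool.Agent.R575.WC Filter

/-- The parallelization of all-or-co-unique choice on `{0, ..., k - 1}` (Weihrauch equivalent to
`DNC_k`): the instance enumerates, for every `e`, at most one element of `{0, ..., k - 1}`; the
solution gives, for every `e`, an element of `{0, ..., k - 1}` that is not enumerated. -/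
def ACC (k : ℕ) : Prob := fun p f => Val k p ∧ ∀ e, f e < k ∧ ¬ Rl p e (f e)

/-- the set of words with name `p` -/
def TreeOf (p : Bai) : Set (List ℕ) := {w | p (Encodable.encode w) = 1}

/-- Weak König's lemma: given an infinite binary tree, find an infinite path. -/
def WKL : Prob := fun p x =>
  (∀ w ∈ TreeOf p, ∀ a ∈ w, a < 2) ∧ (∀ v w, v <+: w → w ∈ TreeOf p → v ∈ TreeOf p) ∧
    (TreeOf p).Infinite ∧ ∀ n, seg x n ∈ TreeOf p

noncomputable section

/-- general form of the non-reducibility -/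
theorem not_red_abs {C : (List ℕ → List ℕ) → Prop} {X : Prob} {k : ℕ} (hk : 2 ≤ k)
    {Tr : List ℕ → List ℕ} (hTr : Incr Tr)
    (hX : ∀ p, Val k p → ∃ p', Maps Tr p p' ∧ (∃ f, X p' f) ∧
      ∀ f, X p' f → ∀ e, f e < k ∧ ¬ Rl p e (f e)) : ¬ Red C X DIAG := by
  rintro ⟨Φ, Ψ, -, -, hΦ, hΨ, H⟩
  refine core hk (A := fun w => Φ (Tr w)) (Θ := fun w σ => Ψ (pairW (Tr w) σ))
    (fun u v huv => hΦ _ _ (hTr _ _ huv))
    (fun w w' σ hw => hΨ _ _ (pairW_mono (hTr _ _ hw) List.prefix_rfl)) ?_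
  intro p hp
  obtain ⟨p', hp1, hp2, hp3⟩ := hX p hp
  obtain ⟨u, hu1, hu2, hu3⟩ := H p' hp2
  have a1 : Appr (fun n => Tr (seg p n)) p' := (Appr_seg p).map hTr hp1
  have hbeg : ∀ {F : List ℕ → List ℕ} {q r : Bai}, Maps F q r → ∀ w, Beg w q → Beg (F w) r := by
    intro F q r hF w hw
    have h1 : w = seg q w.length := hw
    rw [h1]
    exact hF.1 _
  have hun : ∀ {w : ℕ → List ℕ} {r : Bai}, Appr w r → ∀ m, ∃ n, m ≤ (w n).length := by
    intro w r h m
    obtain ⟨n0, hn0⟩ := h m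
    exact ⟨n0, (hn0 n0 le_rfl).1⟩
  refine ⟨u, ⟨fun n => hbeg hu1 _ (hp1.1 n), hun (a1.map hΦ hu1)⟩, hu2, fun v hv => ?_⟩
  obtain ⟨r, hr1, hr2⟩ := hu3 v hv
  refine ⟨r, ?_, ?_, hp3 r hr2⟩
  · intro w σ hw hσ
    exact hbeg hr1 _ (pairW_beg (hbeg hp1 _ hw) hσ)
  · exact hun ((a1.pair (Appr_seg v)).map hΨ hr1)

/-- existence of solutions -/
theorem Val.sol {k : ℕ} (hk : 2 ≤ k) {p : Bai} (hp : Val k p) :
    ∃ f : Bai, ∀ e, f e < 2 ∧ ¬ Rl p e (f e) := by
  classical
  refine ⟨fun e => if Rl p e 0 then 1 else 0, fun e => ?_⟩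
  by_cases h : Rl p e 0
  · simp only [if_pos h]
    refine ⟨by omega, fun h1 => ?_⟩
    have := hp e 0 1 (by omega) (by omega) h h1
    omega
  · simp only [if_neg h]
    exact ⟨by omega, h⟩

theorem Maps_id (p : Bai) : Maps (fun w => w) p p :=
  ⟨fun n => Beg_seg p n, fun k => ⟨k, by simp⟩⟩

/-- `DNC_k` is not reducible to `DIAG`. -/
theorem not_ACC {C : (List ℕ → List ℕ) → Prop} {k : ℕ} (hk : 2 ≤ k) : ¬ Red C (ACC k) DIAG := by
  refine not_red_abs hk (Tr := fun w => w) (fun u v h => h) ?_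
  intro p hp
  refine ⟨p, Maps_id p, ?_, fun f hf => hf.2⟩
  obtain ⟨f, hf⟩ := hp.sol hk
  exact ⟨f, hp, fun e => ⟨lt_of_lt_of_le (hf e).1 hk, (hf e).2⟩⟩

theorem length_le_enc (v : List ℕ) : v.length ≤ Encodable.encode v := by
  induction v with
  | nil => simp
  | cons a l ih =>
    rw [Encodable.encode_list_cons, List.length_cons]
    have := Nat.right_le_pair (Encodable.encode a) (Encodable.encode l)
    omega

/-- membership in the tree of partial solutions -/
def TC (p : Bai) (m : ℕ) : Prop :=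
  ∃ v : List ℕ, Encodable.encode v = m ∧ (∀ a ∈ v, a < 2) ∧
    ∀ e (he : e < v.length), ∀ n < v.length, p n ≠ Nat.pair e v[e] + 1

open Classical in
/-- the tree of partial solutions -/
def tr (p : Bai) : Bai := fun m => if TC p m then 1 else 0

theorem tr_one {p : Bai} {m : ℕ} (h : TC p m) : tr p m = 1 := if_pos h

theorem tr_zero {p : Bai} {m : ℕ} (h : ¬ TC p m) : tr p m = 0 := if_neg h

/-- the tree of partial solutions, on words -/
def Tr (w : List ℕ) : List ℕ := seg (tr (fun i => w.getD i 0)) w.length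

theorem TC_congr {p q : Bai} {m : ℕ} (h : ∀ n < m, p n = q n) (hT : TC p m) : TC q m := by
  obtain ⟨v, h1, h2, h3⟩ := hT
  refine ⟨v, h1, h2, fun e he n hn => ?_⟩
  rw [← h n (by have := length_le_enc v; omega)]
  exact h3 e he n hn

theorem Tr_beg {w : List ℕ} {p : Bai} (h : Beg w p) : Tr w = seg (tr p) w.length := by
  unfold Tr
  apply seg_ext
  intro m hm
  have h1 : ∀ n < m, w.getD n 0 = p n := by
    intro n hn
    rw [List.getD_eq_getElem _ _ (by omega)]
    exact Beg_iff.1 h n _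
  by_cases h3 : TC p m
  · rw [tr_one h3, tr_one (TC_congr (fun n hn => (h1 n hn).symm) h3)]
  · rw [tr_zero h3, tr_zero fun h4 => h3 (TC_congr h1 h4)]

theorem Tr_incr : Incr Tr := by
  intro u v huv
  have h1 := exists_beg v
  rw [Tr_beg (Beg_of_pre huv h1), Tr_beg h1]
  exact seg_le _ huv.length_le

theorem Maps_Tr (p : Bai) : Maps Tr p (tr p) := by
  constructor
  · intro n
    rw [Tr_beg (Beg_seg p n)]
    exact Beg_seg _ _
  · intro k
    refine ⟨k, ?_⟩
    rw [Tr_beg (Beg_seg p k)]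
    simp

theorem mem_tree {p : Bai} {w : List ℕ} : w ∈ TreeOf (tr p) ↔ (∀ a ∈ w, a < 2) ∧
    ∀ e (he : e < w.length), ∀ n < w.length, p n ≠ Nat.pair e w[e] + 1 := by
  classical
  unfold TreeOf tr
  rw [Set.mem_ofPred_eq]
  constructor
  · intro h
    by_cases h1 : TC p (Encodable.encode w)
    · obtain ⟨v, hv1, hv2, hv3⟩ := h1
      rw [Encodable.encode_inj.1 hv1] at hv2 hv3
      exact ⟨hv2, hv3⟩
    · rw [if_neg h1] at h
      omega
  · rintro ⟨h1, h2⟩
    rw [if_pos ⟨w, rfl, h1, h2⟩]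

/-- Weak König's lemma is not reducible to `DIAG`. -/
theorem not_WKL {C : (List ℕ → List ℕ) → Prop} : ¬ Red C WKL DIAG := by
  refine not_red_abs (k := 2) le_rfl Tr_incr ?_
  intro p hp
  refine ⟨tr p, Maps_Tr p, ?_, ?_⟩
  · obtain ⟨f, hf⟩ := hp.sol le_rfl
    have hmem : ∀ n, seg f n ∈ TreeOf (tr p) := by
      intro n
      rw [mem_tree]
      constructor
      · intro a ha
        obtain ⟨m, -, rfl⟩ := mem_seg.1 ha
        exact (hf m).1
      · intro e he m _ hm
        rw [seg_getElem] at hm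
        exact (hf e).2 ⟨m, hm⟩
    refine ⟨f, fun w hw => (mem_tree.1 hw).1, ?_, ?_, hmem⟩
    · intro v w hvw hw
      rw [mem_tree] at hw ⊢
      refine ⟨fun a ha => hw.1 a (hvw.subset ha), fun e he n hn => ?_⟩
      rw [hvw.getElem he]
      exact hw.2 e (lt_of_lt_of_le he hvw.length_le) n (lt_of_lt_of_le hn hvw.length_le)
    · apply Set.infinite_of_injective_forall_mem (f := fun n => seg f n) _ hmem
      intro m n hmn
      have := congrArg List.length hmn
      simpa using this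
  · rintro f ⟨-, -, -, hf⟩ e
    constructor
    · have h1 := (mem_tree.1 (hf (e + 1))).1
      exact h1 (f e) (mem_seg.2 ⟨e, by omega, rfl⟩)
    · rintro ⟨n, hn⟩
      have h1 := (mem_tree.1 (hf (e + n + 1))).2 e (by rw [seg_length]; omega) n
        (by rw [seg_length]; omega)
      rw [seg_getElem] at h1
      exact h1 hn

/-! ### The converse non-reducibilities -/

/-- an enumeration of equality -/
def u0 : Bai := fun n => Nat.pair n n + 1

/-- the relation with the two classes `[0, s]` and `(s, ∞)` -/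
def Rs (s x y : ℕ) : Prop := x ≤ s ↔ y ≤ s

open Classical in
/-- an enumeration of the relation `Rs s` that begins like `u0` -/
def us (s : ℕ) : Bai := fun n =>
  if n < s then Nat.pair n n + 1
  else if Rs s (Nat.unpair (n - s)).1 (Nat.unpair (n - s)).2 then n - s + 1 else 0

theorem Rl_u0 {x y : ℕ} : Rl u0 x y ↔ x = y := by
  constructor
  · rintro ⟨n, hn⟩
    unfold u0 at hn
    have : Nat.pair n n = Nat.pair x y := by omega
    obtain ⟨h1, h2⟩ := Nat.pair_eq_pair.1 this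
    omega
  · rintro rfl
    exact ⟨x, rfl⟩

theorem Rl_us {s x y : ℕ} : Rl (us s) x y ↔ Rs s x y := by
  classical
  constructor
  · rintro ⟨n, hn⟩
    unfold us at hn
    split at hn
    · have : Nat.pair n n = Nat.pair x y := by omega
      obtain ⟨h1, h2⟩ := Nat.pair_eq_pair.1 this
      unfold Rs
      omega
    · split at hn
      · rename_i h
        have : n - s = Nat.pair x y := by omega
        rw [this, Nat.unpair_pair] at h
        exact h
      · omega
  · intro h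
    refine ⟨Nat.pair x y + s, ?_⟩
    unfold us
    rw [if_neg (by omega), Nat.add_sub_cancel, Nat.unpair_pair, if_pos h]

theorem dom_us (s : ℕ) : ∃ g, DIAG (us s) g := by
  classical
  refine ⟨fun x => if x ≤ s then s + 1 else s, ?_, ⟨s, s + 1, ?_⟩, ?_⟩
  · constructor
    · intro x
      rw [Rl_us]
      exact Iff.rfl
    · intro x y
      rw [Rl_us, Rl_us]
      exact Iff.symm
    · intro x y z
      rw [Rl_us, Rl_us, Rl_us]
      exact Iff.trans
  · rw [Rl_us]
    unfold Rs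
    omega
  · intro x
    rw [Rl_us]
    unfold Rs
    show ¬ ((if x ≤ s then s + 1 else s) ≤ s ↔ x ≤ s)
    split <;> omega

theorem dom_u0 : ∃ g, DIAG u0 g := by
  refine ⟨fun x => x + 1, ?_, ⟨0, 1, ?_⟩, ?_⟩
  · constructor
    · intro x
      rw [Rl_u0]
    · intro x y
      rw [Rl_u0, Rl_u0]
      exact Eq.symm
    · intro x y z
      rw [Rl_u0, Rl_u0, Rl_u0]
      exact Eq.trans
  · rw [Rl_u0]
    omega
  · intro x
    rw [Rl_u0]
    show ¬ (x + 1 = x)
    omega

theorem seg_us (s : ℕ) {n : ℕ} (h : n ≤ s) : seg (us s) n = seg u0 n := by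
  apply seg_ext
  intro i hi
  unfold us u0
  rw [if_pos (by omega)]

/-- `DIAG` is not reducible to a problem with a closed graph and uniformly bounded solutions -/
theorem not_bounded {C : (List ℕ → List ℕ) → Prop} {X : Prob} {k : ℕ}
    (hb : ∀ p f, X p f → ∀ n, f n < k)
    (hc : ∀ p, (∃ f, X p f) → ∀ f : Bai, (∀ n, ∃ p' f', X p' f' ∧ seg p' n = seg p n ∧
      seg f' n = seg f n) → X p f) : ¬ Red C DIAG X := by
  rintro ⟨Φ, Ψ, -, -, hΦ, hΨ, H⟩
  obtain ⟨p, hp1, hp2, hp3⟩ := H u0 dom_u0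
  choose q hq1 hq2 hq3 using fun s => H (us s) (dom_us s)
  choose f hf using hq2
  obtain ⟨U, hU⟩ : ∃ U : Ultrafilter ℕ, (U : Filter ℕ) ≤ atTop :=
    ⟨Ultrafilter.of atTop, Ultrafilter.of_le _⟩
  have h1 : ∀ n, ∃ a : Fin k, ∀ᶠ s in (U : Filter ℕ), (⟨f s n, hb _ _ (hf s) n⟩ : Fin k) = a :=
    fun n => ultra_fin (fun s => (⟨f s n, hb _ _ (hf s) n⟩ : Fin k)) U
  choose F hF using h1
  have hFn : ∀ n, ∀ᶠ s in (U : Filter ℕ), seg (f s) n = seg (fun m => (F m : ℕ)) n := by
    intro n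
    have h2 : ∀ᶠ s in (U : Filter ℕ), ∀ m : Fin n,
        (⟨f s m, hb _ _ (hf s) m⟩ : Fin k) = F m := Filter.eventually_all.2 fun m => hF m
    filter_upwards [h2] with s hs
    apply seg_ext
    intro i hi
    rw [← hs ⟨i, hi⟩]
  have hXF : X p (fun m => (F m : ℕ)) := by
    apply hc p hp2
    intro n
    obtain ⟨n0, hn0⟩ := hp1.2 n
    have h3 : ∀ᶠ s in (U : Filter ℕ), n0 ≤ s := hU (eventually_ge_atTop n0)
    obtain ⟨s, hs1, hs2⟩ := (h3.and (hFn n)).exists
    refine ⟨q s, f s, hf s, ?_, hs2⟩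
    have h4 := (hq1 s).1 n0
    rw [seg_us s hs1] at h4
    have h5 := hp1.1 n0
    have h6 := Beg_ge h4 hn0
    have h7 := Beg_ge h5 hn0
    have h8 := h6.eq_of_length_le
    rcases List.prefix_or_prefix_of_prefix h6 h7 with h9 | h9
    · exact h9.eq_of_length (by simp)
    · exact (h9.eq_of_length (by simp)).symm
  obtain ⟨g, hg1, hg2⟩ := hp3 _ hXF
  obtain ⟨n, hn⟩ := hg1.2 1
  have h3 : ∀ᶠ s in (U : Filter ℕ), n + g 0 ≤ s := hU (eventually_ge_atTop _)
  obtain ⟨s, hs1, hs2⟩ := (h3.and (hFn n)).exists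
  obtain ⟨g', hg1', hg2'⟩ := hq3 s _ (hf s)
  have h4 : seg (pair (us s) (f s)) n = seg (pair u0 (fun m => (F m : ℕ))) n := by
    apply seg_ext
    intro i hi
    unfold pair
    split
    · exact seg_inj (seg_us s (n := n) (by omega)) _ (by omega)
    · exact seg_inj hs2 _ (by omega)
  have h5 := hg1'.1 n
  rw [h4] at h5
  have h6 := Beg_iff.1 h5 0 (by omega)
  have h7 := Beg_iff.1 (hg1.1 n) 0 (by omega)
  have h8 := hg2'.2.2 0
  rw [← h6, h7, Rl_us] at h8
  apply h8
  unfold Rs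
  omega

theorem not_DIAG_ACC {C : (List ℕ → List ℕ) → Prop} (k : ℕ) : ¬ Red C DIAG (ACC k) := by
  apply not_bounded (k := k) (fun p f h n => (h.2 n).1)
  rintro p ⟨f0, hp, -⟩ f h
  refine ⟨hp, fun e => ?_⟩
  constructor
  · obtain ⟨p', f', h1, h2, h3⟩ := h (e + 1)
    rw [← seg_inj h3 e (by omega)]
    exact (h1.2 e).1
  · rintro ⟨n, hn⟩
    obtain ⟨p', f', h1, h2, h3⟩ := h (e + n + 1)
    have h4 := (h1.2 e).2
    rw [seg_inj h3 e (by omega)] at h4
    apply h4
    refine ⟨n, ?_⟩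
    rw [seg_inj h2 n (by omega)]
    exact hn

theorem not_DIAG_WKL {C : (List ℕ → List ℕ) → Prop} : ¬ Red C DIAG WKL := by
  apply not_bounded (k := 2)
  · rintro p f ⟨h1, -, -, h2⟩ n
    exact h1 _ (h2 (n + 1)) (f n) (mem_seg.2 ⟨n, by omega, rfl⟩)
  · rintro p ⟨f0, h1, h2, h3, -⟩ f h
    refine ⟨h1, h2, h3, fun n => ?_⟩
    obtain ⟨p', f', h4, h5, h6⟩ := h (Encodable.encode (seg f n) + n + 1)
    have h7 := h4.2.2.2 n
    have h8 : seg f' n = seg f n := by
      apply seg_ext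
      intro i hi
      exact seg_inj h6 i (by omega)
    rw [h8] at h7
    unfold TreeOf at h7 ⊢
    rw [Set.mem_ofPred_eq] at h7 ⊢
    rw [← seg_inj h5 _ (by omega)]
    exact h7

end

end Pool.Agent.R575.DG
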