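import Pool.Agent.R575.DG.Main

/-!
Choice on the natural numbers is reducible to `DIAG`, and `DIAG` is reducible to the product of
choice on the natural numbers and `DNC_2`.
-/

namespace Pool.Agent.R575.DG

open Pool.Agent.R575.WC

/-- local functionals -/
def Loc (F : Bai → Bai) : Prop := ∀ p q n, (∀ i ≤ n, p i = q i) → F p n = F q n

/-- a local functional on words -/
def W (F : Bai → Bai) (w : List ℕ) : List ℕ := seg (F (fun i => w.getD i 0)) w.length

theorem W_beg {F : Bai → Bai} (hF : Loc F) {w : List ℕ} {p : Bai} (h : Beg w p) :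
    W F w = seg (F p) w.length := by
  unfold W
  apply seg_ext
  intro m hm
  apply hF
  intro i hi
  rw [List.getD_eq_getElem _ _ (by omega)]
  exact Beg_iff.1 h i _

theorem W_incr {F : Bai → Bai} (hF : Loc F) : Incr (W F) := by
  intro u v huv
  have h1 := exists_beg v
  rw [W_beg hF (Beg_of_pre huv h1), W_beg hF h1]
  exact seg_le _ huv.length_le

theorem Maps_W {F : Bai → Bai} (hF : Loc F) (p : Bai) : Maps (W F) p (F p) := by
  constructor
  · intro n
    rw [W_beg hF (Beg_seg p n)]
    exact Beg_seg _ _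
  · intro k
    refine ⟨k, ?_⟩
    rw [W_beg hF (Beg_seg p k)]
    simp

theorem W_computable {F : Bai → Bai}
    (h : Primrec₂ fun (w : List ℕ) (n : ℕ) => F (fun i => w.getD i 0) n) : Computable (W F) := by
  apply Primrec.to_comp
  unfold W seg
  exact Primrec.list_map (Primrec.list_range.comp Primrec.list_length) h

/-- the number `a` occurs in `p` before position `t` -/
def hit (p : Bai) (t a : ℕ) : Prop := ∃ i < t, p i = a

instance (p : Bai) (t a : ℕ) : Decidable (hit p t a) := by unfold hit; infer_instance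

theorem hit_congr {p q : Bai} {n t a : ℕ} (h : ∀ i ≤ n, p i = q i) (ht : t ≤ n) :
    hit p t a ↔ hit q t a := by
  unfold hit
  constructor
  · rintro ⟨i, h1, h2⟩
    exact ⟨i, h1, by rw [← h i (by omega)]; exact h2⟩
  · rintro ⟨i, h1, h2⟩
    exact ⟨i, h1, by rw [h i (by omega)]; exact h2⟩

theorem hit_prim {α : Type*} [Primcodable α] {f : α → List ℕ} {g h : α → ℕ} (hf : Primrec f)
    (hg : Primrec g) (hh : Primrec h) :
    PrimrecPred fun x => hit (fun i => (f x).getD i 0) (g x) (h x) := by
  have h1 : PrimrecRel fun (i : ℕ) (y : List ℕ × ℕ) => y.1.getD i 0 = y.2 :=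
    Primrec.eq.comp ((Primrec.list_getD 0).comp (Primrec.fst.comp Primrec.snd) Primrec.fst)
      (Primrec.snd.comp Primrec.snd)
  exact (h1.exists_mem_list.comp (Primrec.list_range.comp hg) (hf.pair hh)).of_eq
    fun x => by simp [hit]

/-- all numbers below `m` are removed before stage `s` -/
def pre (p : Bai) (m s : ℕ) : Prop := ∀ j < m, hit p s (j + 1)

instance (p : Bai) (m s : ℕ) : Decidable (pre p m s) := by unfold pre; infer_instance

theorem pre_congr {p q : Bai} {n m s : ℕ} (h : ∀ i ≤ n, p i = q i) (ht : s ≤ n) :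
    pre p m s ↔ pre q m s := by
  unfold pre
  simp only [hit_congr h ht]

theorem pre_prim {α : Type*} [Primcodable α] {f : α → List ℕ} {g h : α → ℕ} (hf : Primrec f)
    (hg : Primrec g) (hh : Primrec h) :
    PrimrecPred fun x => pre (fun i => (f x).getD i 0) (g x) (h x) := by
  have h1 : PrimrecRel fun (j : ℕ) (y : List ℕ × ℕ) => hit (fun i => y.1.getD i 0) y.2 (j + 1) :=
    hit_prim (Primrec.fst.comp Primrec.snd) (Primrec.snd.comp Primrec.snd)
      (Primrec.succ.comp Primrec.fst)
  exact (h1.forall_mem_list.comp (Primrec.list_range.comp hg) (hf.pair hh)).of_eq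
    fun x => by simp [pre]

/-- the element `x` is known to be bad at stage `t` -/
def bad (p : Bai) (x t : ℕ) : Prop :=
  ¬ pre p x.unpair.1 x.unpair.2 ∨ hit p t (x.unpair.1 + 1)

instance (p : Bai) (x t : ℕ) : Decidable (bad p x t) := by unfold bad; infer_instance

/-- equivalence of `x` and `y` is known at stage `t` -/
def eqs (p : Bai) (x y t : ℕ) : Prop :=
  (bad p x t ∧ bad p y t) ∨ (pre p x.unpair.1 x.unpair.2 ∧ pre p y.unpair.1 y.unpair.2 ∧
    x.unpair.1 = y.unpair.1)

instance (p : Bai) (x y t : ℕ) : Decidable (eqs p x y t) := by unfold eqs; infer_instance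

/-- the relation for choice on the natural numbers -/
def F1 (p : Bai) : Bai := fun n =>
  if eqs p n.unpair.1.unpair.1 n.unpair.1.unpair.2 n.unpair.2 then n.unpair.1 + 1 else 0

theorem F1_loc : Loc F1 := by
  intro p q n h
  have a1 : n.unpair.1 ≤ n := Nat.unpair_left_le n
  have a2 : n.unpair.2 ≤ n := Nat.unpair_right_le n
  have a3 : n.unpair.1.unpair.1 ≤ n := (Nat.unpair_left_le _).trans a1
  have a4 : n.unpair.1.unpair.2 ≤ n := (Nat.unpair_right_le _).trans a1
  have a5 := (Nat.unpair_right_le n.unpair.1.unpair.1).trans a3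
  have a6 := (Nat.unpair_right_le n.unpair.1.unpair.2).trans a4
  have key : eqs p n.unpair.1.unpair.1 n.unpair.1.unpair.2 n.unpair.2 ↔
      eqs q n.unpair.1.unpair.1 n.unpair.1.unpair.2 n.unpair.2 := by
    unfold eqs bad
    rw [pre_congr h a5, pre_congr h a6, hit_congr h a2, hit_congr h a2]
  unfold F1
  simp only [key]

theorem F1_prim : Primrec₂ fun (w : List ℕ) (n : ℕ) => F1 (fun i => w.getD i 0) n := by
  unfold F1
  have e1 : Primrec fun x : List ℕ × ℕ => x.2.unpair.1 :=
    Primrec.fst.comp (Primrec.unpair.comp Primrec.snd)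
  have e2 : Primrec fun x : List ℕ × ℕ => x.2.unpair.2 :=
    Primrec.snd.comp (Primrec.unpair.comp Primrec.snd)
  have ex : Primrec fun x : List ℕ × ℕ => x.2.unpair.1.unpair.1 :=
    Primrec.fst.comp (Primrec.unpair.comp e1)
  have ey : Primrec fun x : List ℕ × ℕ => x.2.unpair.1.unpair.2 :=
    Primrec.snd.comp (Primrec.unpair.comp e1)
  have ex1 := Primrec.fst.comp (Primrec.unpair.comp ex)
  have ex2 := Primrec.snd.comp (Primrec.unpair.comp ex)
  have ey1 := Primrec.fst.comp (Primrec.unpair.comp ey)
  have ey2 := Primrec.snd.comp (Primrec.unpair.comp ey)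
  have px := pre_prim Primrec.fst ex1 ex2
  have py := pre_prim Primrec.fst ey1 ey2
  have hx := hit_prim Primrec.fst e2 (Primrec.succ.comp ex1)
  have hy := hit_prim Primrec.fst e2 (Primrec.succ.comp ey1)
  have hbx := px.not.or hx
  have hby := py.not.or hy
  have hc := (hbx.and hby).or (px.and (py.and (Primrec.eq.comp ex1 ey1)))
  exact Primrec.ite hc (Primrec.succ.comp e1) (Primrec.const 0)

/-- the element `x` is bad -/
def badI (p : Bai) (x : ℕ) : Prop :=
  ¬ pre p x.unpair.1 x.unpair.2 ∨ ∃ n, p n = x.unpair.1 + 1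

theorem Rl_F1 {p : Bai} {x y : ℕ} : Rl (F1 p) x y ↔ (badI p x ∧ badI p y) ∨
    (pre p x.unpair.1 x.unpair.2 ∧ pre p y.unpair.1 y.unpair.2 ∧ x.unpair.1 = y.unpair.1) := by
  constructor
  · rintro ⟨n, hn⟩
    unfold F1 at hn
    split at hn
    · rename_i h
      have h1 : n.unpair.1 = Nat.pair x y := by omega
      rw [h1, Nat.unpair_pair] at h
      rcases h with ⟨h2, h3⟩ | h2
      · refine Or.inl ⟨?_, ?_⟩
        · rcases h2 with h2 | ⟨i, -, h2⟩
          · exact Or.inl h2
          · exact Or.inr ⟨i, h2⟩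
        · rcases h3 with h2 | ⟨i, -, h2⟩
          · exact Or.inl h2
          · exact Or.inr ⟨i, h2⟩
      · exact Or.inr h2
    · omega
  · have hb : ∀ z, badI p z → ∃ t0, ∀ t ≥ t0, bad p z t := by
      rintro z (h | ⟨n, hn⟩)
      · exact ⟨0, fun t _ => Or.inl h⟩
      · exact ⟨n + 1, fun t ht => Or.inr ⟨n, by omega, hn⟩⟩
    have hfin : ∀ t, eqs p x y t → Rl (F1 p) x y := by
      intro t ht
      refine ⟨Nat.pair (Nat.pair x y) t, ?_⟩
      unfold F1
      simp only [Nat.unpair_pair]
      rw [if_pos ht]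
    rintro (⟨h1, h2⟩ | h1)
    · obtain ⟨t1, h3⟩ := hb x h1
      obtain ⟨t2, h4⟩ := hb y h2
      exact hfin (max t1 t2) (Or.inl ⟨h3 _ (le_max_left _ _), h4 _ (le_max_right _ _)⟩)
    · exact hfin 0 (Or.inr h1)

theorem Rl_F1' {p : Bai} {x y : ℕ} : Rl (F1 p) x y ↔ (badI p x ↔ badI p y) := by
  rw [Rl_F1]
  have hgood : ∀ z, ¬ badI p z → pre p z.unpair.1 z.unpair.2 ∧ ∀ n, p n ≠ z.unpair.1 + 1 := by
    intro z hz
    unfold badI at hz
    push Not at hz
    exact hz
  constructor
  · rintro (⟨h1, h2⟩ | ⟨h1, h2, h3⟩)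
    · exact ⟨fun _ => h2, fun _ => h1⟩
    · unfold badI
      rw [h3]
      constructor
      · rintro (h | h)
        · rw [← h3] at h
          exact absurd h1 h
        · exact Or.inr h
      · rintro (h | h)
        · exact absurd h2 h
        · exact Or.inr h
  · intro h
    by_cases hx : badI p x
    · exact Or.inl ⟨hx, h.1 hx⟩
    · obtain ⟨h1, h2⟩ := hgood x hx
      obtain ⟨h3, h4⟩ := hgood y fun hy => hx (h.2 hy)
      refine Or.inr ⟨h1, h3, ?_⟩
      rcases lt_trichotomy x.unpair.1 y.unpair.1 with h5 | h5 | h5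
      · obtain ⟨i, -, hi⟩ := h3 _ h5
        exact absurd hi (h2 i)
      · exact h5
      · obtain ⟨i, -, hi⟩ := h1 _ h5
        exact absurd hi (h4 i)

/-- Choice on the natural numbers is reducible to `DIAG`. -/
theorem CNat_le : WRed CNat DIAG := by
  refine ⟨W F1, fun w => (w.drop 5).map (fun a => a.unpair.1), W_computable F1_prim, ?_,
    W_incr F1_loc, ?_, ?_⟩
  · exact (Primrec.list_map (Primrec.list_drop.comp (Primrec.const 5) Primrec.id)
      (Primrec.fst.comp (Primrec.unpair.comp Primrec.snd)).to₂).to_comp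
  · rintro u v ⟨t, rfl⟩
    show List.map (fun a : ℕ => a.unpair.1) (List.drop 5 u) <+:
      List.map (fun a : ℕ => a.unpair.1) (List.drop 5 (u ++ t))
    rw [List.drop_append, List.map_append]
    exact List.prefix_append _ _
  · rintro p ⟨q, hq⟩
    refine ⟨F1 p, Maps_W F1_loc p, ?_, ?_⟩
    · have hE : Equivalence (Rl (F1 p)) := by
        constructor
        · intro x
          rw [Rl_F1']
        · intro x y
          rw [Rl_F1', Rl_F1']
          exact Iff.symm
        · intro x y z
          rw [Rl_F1', Rl_F1', Rl_F1']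
          exact Iff.trans
      have hex : ∃ m, m ∈ closedNat p := ⟨_, hq⟩
      classical
      obtain ⟨m, hm1, hm2⟩ : ∃ m, m ∈ closedNat p ∧ ∀ j < m, j ∉ closedNat p :=
        ⟨Nat.find hex, Nat.find_spec hex, fun j hj => Nat.find_min hex hj⟩
      have hrem : ∀ j < m, ∃ n, p n = j + 1 := by
        intro j hj
        have := hm2 j hj
        unfold closedNat at this
        rw [Set.mem_ofPred_eq] at this
        push Not at this
        exact this
      have hs : ∀ k ≤ m, ∃ s, pre p k s := by
        intro k hk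
        induction k with
        | zero => exact ⟨0, fun j hj => by omega⟩
        | succ k ih =>
          obtain ⟨s, hs⟩ := ih (by omega)
          obtain ⟨n, hn⟩ := hrem k (by omega)
          refine ⟨max s (n + 1), fun j hj => ?_⟩
          rcases Nat.lt_succ_iff_lt_or_eq.1 hj with h1 | h1
          · obtain ⟨i, h2, h3⟩ := hs j h1
            exact ⟨i, lt_of_lt_of_le h2 (le_max_left _ _), h3⟩
          · subst h1
            exact ⟨n, lt_of_lt_of_le (Nat.lt_succ_self n) (le_max_right _ _), hn⟩
      obtain ⟨s, hs⟩ := hs m le_rfl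
      have hgood : ¬ badI p (Nat.pair m s) := by
        unfold badI
        rw [Nat.unpair_pair]
        push Not
        exact ⟨hs, hm1⟩
      have hbad : badI p 2 := by
        refine Or.inl ?_
        have h2 : Nat.unpair 2 = (1, 0) := by
          have : Nat.pair 1 0 = 2 := by decide
          rw [← this, Nat.unpair_pair]
        rw [h2]
        intro h
        obtain ⟨i, hi, -⟩ := h 0 (by norm_num)
        omega
      refine ⟨fun x => if badI p x then Nat.pair m s else 2, hE, ⟨2, Nat.pair m s, ?_⟩, ?_⟩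
      · rw [Rl_F1']
        exact fun h => hgood (h.1 hbad)
      · intro x
        rw [Rl_F1']
        show ¬ (badI p (if badI p x then Nat.pair m s else 2) ↔ badI p x)
        by_cases hx : badI p x
        · rw [if_pos hx]
          exact fun h => hgood (h.2 hx)
        · rw [if_neg hx]
          exact fun h => hx (h.1 hbad)
    · intro g hg
      refine ⟨fun k => (pair p g (k + 5)).unpair.1, ⟨fun n => ?_, fun k => ⟨k + 5, ?_⟩⟩, ?_⟩
      · rw [Beg_iff]
        intro i hi
        simp only [List.length_map, List.length_drop, seg_length] at hi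
        rw [List.getElem_map, List.getElem_drop, seg_getElem, Nat.add_comm 5 i]
      · simp
      · have hbad : badI p 2 := by
          refine Or.inl ?_
          have h2 : Nat.unpair 2 = (1, 0) := by
            have : Nat.pair 1 0 = 2 := by decide
            rw [← this, Nat.unpair_pair]
          rw [h2]
          intro h
          obtain ⟨i, hi, -⟩ := h 0 (by norm_num)
          omega
        have h1 := hg.2.2 2
        rw [Rl_F1'] at h1
        have h2 : ¬ badI p (g 2) := fun h => h1 ⟨fun _ => hbad, fun _ => h⟩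
        show (pair p g 5).unpair.1 ∈ closedNat p
        have h3 : pair p g 5 = g 2 := rfl
        rw [h3]
        intro n hn
        exact h2 (Or.inr ⟨n, hn⟩)

end Pool.Agent.R575.DG
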