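import Pool.Agent.R575.DG.Upp

/-!
`DIAG` is not reducible to the product of choice on the natural numbers and `DNC_k`, `k ≥ 3`.
-/

namespace Pool.Agent.R575.DG

open Pool.Agent.R575.WC Filter

noncomputable section

/-- `z` is assigned to the class `i < 2` by the first `t` entries of `a` -/
def asgT (a : Bai) (t z i : ℕ) : Prop :=
  (z < 2 ∧ z = i) ∨ (2 ≤ z ∧ i < 2 ∧
    ∃ n < t, a n = Nat.pair z i + 1 ∧ ∀ n' < n, ∀ j < 2, a n' ≠ Nat.pair z j + 1)

theorem asgT_mono {a : Bai} {t t' z i : ℕ} (h : t ≤ t') (h1 : asgT a t z i) : asgT a t' z i := by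
  rcases h1 with h1 | ⟨h1, h2, n, hn, h3⟩
  · exact Or.inl h1
  · exact Or.inr ⟨h1, h2, n, lt_of_lt_of_le hn h, h3⟩

theorem asgT_lt {a : Bai} {t z i : ℕ} (h1 : asgT a t z i) : i < 2 := by
  rcases h1 with h1 | h1
  · omega
  · exact h1.2.1

theorem asgT_unique {a : Bai} {t t' z i j : ℕ} (h1 : asgT a t z i) (h2 : asgT a t' z j) :
    i = j := by
  rcases h1 with h1 | ⟨h1, hi, n, -, hn1, hn2⟩
  · rcases h2 with h2 | h2
    · omega
    · omega
  · rcases h2 with h2 | ⟨h2, hj, n', -, hn1', hn2'⟩
    · omega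
    · rcases lt_trichotomy n n' with h | h | h
      · exact absurd hn1 (hn2' n h i hi)
      · subst h
        have : Nat.pair z i = Nat.pair z j := by omega
        exact (Nat.pair_eq_pair.1 this).2
      · exact absurd hn1' (hn2 n' h j hj)

theorem asgT_congr {p q : Bai} {n t z i : ℕ} (h : ∀ i ≤ n, p i = q i) (ht : t ≤ n)
    (h1 : asgT p t z i) : asgT q t z i := by
  rcases h1 with h1 | ⟨h1, hi, m, hm, hn1, hn2⟩
  · exact Or.inl h1
  · refine Or.inr ⟨h1, hi, m, hm, by rw [← h m (by omega)]; exact hn1, fun n' hn' j hj => ?_⟩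
    rw [← h n' (by omega)]
    exact hn2 n' hn' j hj

/-- equivalence is known -/
def Gc (a : Bai) (n : ℕ) : Prop :=
  n.unpair.1.unpair.1 = n.unpair.1.unpair.2 ∨
    ∃ i, asgT a n.unpair.2 n.unpair.1.unpair.1 i ∧ asgT a n.unpair.2 n.unpair.1.unpair.2 i

open Classical in
/-- the equivalence relation given by assignments of numbers to two classes -/
def G (a : Bai) : Bai := fun n => if Gc a n then n.unpair.1 + 1 else 0

theorem G_pos {a : Bai} {n : ℕ} (h : Gc a n) : G a n = n.unpair.1 + 1 := if_pos h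

theorem G_neg {a : Bai} {n : ℕ} (h : ¬ Gc a n) : G a n = 0 := if_neg h

theorem G_loc : Loc G := by
  intro p q n h
  have a2 : n.unpair.2 ≤ n := Nat.unpair_right_le n
  have key : ∀ z i, asgT p n.unpair.2 z i ↔ asgT q n.unpair.2 z i := fun z i =>
    ⟨asgT_congr h a2, asgT_congr (fun i hi => (h i hi).symm) a2⟩
  have hc : Gc p n ↔ Gc q n := by
    unfold Gc
    simp only [key]
  by_cases h1 : Gc p n
  · rw [G_pos h1, G_pos (hc.1 h1)]
  · rw [G_neg h1, G_neg fun h2 => h1 (hc.2 h2)]

theorem Rl_G {a : Bai} {x y : ℕ} :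
    Rl (G a) x y ↔ x = y ∨ ∃ t i, asgT a t x i ∧ asgT a t y i := by
  classical
  constructor
  · rintro ⟨n, hn⟩
    by_cases h : Gc a n
    · rw [G_pos h] at hn
      have h1 : n.unpair.1 = Nat.pair x y := by omega
      unfold Gc at h
      rw [h1, Nat.unpair_pair] at h
      rcases h with h | ⟨i, h⟩
      · exact Or.inl h
      · exact Or.inr ⟨_, i, h⟩
    · rw [G_neg h] at hn
      omega
  · intro h
    have hfin : ∀ t, (x = y ∨ ∃ i, asgT a t x i ∧ asgT a t y i) → Rl (G a) x y := by
      intro t ht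
      refine ⟨Nat.pair (Nat.pair x y) t, ?_⟩
      have h1 : Gc a (Nat.pair (Nat.pair x y) t) := by
        unfold Gc
        simp only [Nat.unpair_pair]
        exact ht
      rw [G_pos h1, Nat.unpair_pair]
    rcases h with h | ⟨t, i, h⟩
    · exact hfin 0 (Or.inl h)
    · exact hfin t (Or.inr ⟨i, h⟩)

theorem dom_G (a : Bai) : ∃ g, DIAG (G a) g := by
  classical
  have hE : Equivalence (Rl (G a)) := by
    constructor
    · intro x
      rw [Rl_G]
      exact Or.inl rfl
    · intro x y h
      rw [Rl_G] at h ⊢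
      rcases h with h | ⟨t, i, h1, h2⟩
      · exact Or.inl h.symm
      · exact Or.inr ⟨t, i, h2, h1⟩
    · intro x y z h h'
      rw [Rl_G] at h h' ⊢
      rcases h with h | ⟨t, i, h1, h2⟩
      · rw [h]
        exact h'
      · rcases h' with h' | ⟨t', i', h3, h4⟩
        · rw [← h']
          exact Or.inr ⟨t, i, h1, h2⟩
        · have := asgT_unique h2 h3
          subst this
          exact Or.inr ⟨max t t', i, asgT_mono (le_max_left _ _) h1,
            asgT_mono (le_max_right _ _) h4⟩
  have h01 : ¬ Rl (G a) 0 1 := by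
    rw [Rl_G]
    rintro (h | ⟨t, i, h1, h2⟩)
    · omega
    · have h3 : asgT a t 0 0 := Or.inl ⟨by omega, rfl⟩
      have h4 : asgT a t 1 1 := Or.inl ⟨by omega, rfl⟩
      have := asgT_unique h1 h3
      have := asgT_unique h2 h4
      omega
  refine ⟨fun x => if Rl (G a) x 0 then 1 else 0, hE, ⟨0, 1, h01⟩, fun x => ?_⟩
  show ¬ Rl (G a) (if Rl (G a) x 0 then 1 else 0) x
  by_cases h : Rl (G a) x 0
  · rw [if_pos h]
    exact fun h1 => h01 (hE.symm (hE.trans h1 h))
  · rw [if_neg h]
    exact fun h1 => h (hE.symm h1)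

theorem bnd (l : List ℕ) : ∃ X, ∀ b ∈ l, b < X := by
  induction l with
  | nil => exact ⟨0, fun b hb => by simp at hb⟩
  | cons c l ih =>
    obtain ⟨X, hX⟩ := ih
    refine ⟨max X (c + 1), fun b hb => ?_⟩
    rcases List.mem_cons.1 hb with h | h
    · subst h
      exact lt_of_lt_of_le (Nat.lt_succ_self _) (le_max_right _ _)
    · exact lt_of_lt_of_le (hX b h) (le_max_left _ _)

/-- `π` followed by zeros -/
def a0 (π : List ℕ) : Bai := fun n => π.getD n 0

/-- `π`, then `s` zeros, then all numbers up to `s` are assigned to the class `i` -/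
def as (π : List ℕ) (i s : ℕ) : Bai := fun n =>
  if n < π.length + s then a0 π n
  else if n - (π.length + s) ≤ s then Nat.pair (n - (π.length + s)) i + 1 else 0

theorem seg_as (π : List ℕ) (i s : ℕ) {n : ℕ} (h : n ≤ π.length + s) :
    seg (as π i s) n = seg (a0 π) n := by
  apply seg_ext
  intro m hm
  unfold as
  rw [if_pos (by omega)]

theorem beg_as (π : List ℕ) (i s : ℕ) : Beg π (as π i s) := by
  have h1 : π = seg (a0 π) π.length := exists_beg π
  unfold Beg
  rw [seg_as π i s (by omega)]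
  exact h1

theorem a0_zero {π : List ℕ} {n : ℕ} (h : π.length ≤ n) : a0 π n = 0 := by
  unfold a0
  rw [List.getD_eq_default _ _ h]

theorem as_asg {π : List ℕ} {i s z : ℕ} (hi : i < 2) (hz : z ≤ s)
    (hn : ¬ asgT (a0 π) π.length z (1 - i)) : ∃ t, asgT (as π i s) t z i := by
  classical
  by_cases h2 : z < 2
  · by_cases h3 : z = i
    · exact ⟨0, Or.inl ⟨h2, h3⟩⟩
    · exact absurd (Or.inl ⟨h2, by omega⟩) hn
  · by_cases h3 : ∃ n, n < π.length ∧ ∃ j < 2, a0 π n = Nat.pair z j + 1
    · have h4 := Nat.find_spec h3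
      have h5 : ∀ n' < Nat.find h3, ∀ j < 2, a0 π n' ≠ Nat.pair z j + 1 := by
        intro n' hn' j hj hc
        exact Nat.find_min h3 hn' ⟨by omega, j, hj, hc⟩
      obtain ⟨h6, j, hj, h7⟩ := h4
      have hji : j = i := by
        by_contra hne
        apply hn
        have : j = 1 - i := by omega
        rw [← this]
        exact Or.inr ⟨by omega, hj, _, h6, h7, h5⟩
      subst hji
      refine ⟨Nat.find h3 + 1, Or.inr ⟨by omega, hj, Nat.find h3, by omega, ?_, ?_⟩⟩
      · unfold as
        rw [if_pos (by omega)]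
        exact h7
      · intro n' hn' j' hj'
        unfold as
        rw [if_pos (by omega)]
        exact h5 n' hn' j' hj'
    · push Not at h3
      refine ⟨π.length + s + z + 1, Or.inr ⟨by omega, hi, π.length + s + z, by omega, ?_, ?_⟩⟩
      · unfold as
        rw [if_neg (by omega)]
        have : π.length + s + z - (π.length + s) = z := by omega
        rw [this, if_pos hz]
      · intro n' hn' j' hj'
        unfold as
        split
        · rcases lt_or_ge n' π.length with h | h
          · exact h3 n' h j' hj'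
          · rw [a0_zero h]
            omega
        · split
          · intro hc
            have h4 : Nat.pair (n' - (π.length + s)) i = Nat.pair z j' := by omega
            have := (Nat.pair_eq_pair.1 h4).1
            omega
          · omega

theorem opt {k : ℕ} {q : Bai} (hq : Val k q) : ∃ r : ℕ → Option (Fin k),
    ∀ e (j : Fin k), Rl q e j ↔ r e = some j := by
  classical
  refine ⟨fun e => if h : ∃ j : Fin k, Rl q e j then some (Classical.choose h) else none,
    fun e j => ?_⟩
  by_cases h : ∃ j : Fin k, Rl q e j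
  · simp only [dif_pos h, Option.some.injEq]
    have h1 := Classical.choose_spec h
    constructor
    · intro h2
      exact Fin.ext (hq e _ _ (Fin.is_lt _) j.2 h1 h2)
    · rintro rfl
      exact h1
  · simp only [dif_neg h]
    constructor
    · intro h2
      exact absurd ⟨j, h2⟩ h
    · intro h2
      cases h2

theorem avoid2 {k : ℕ} (hk : 3 ≤ k) (r r' : Option (Fin k)) :
    ∃ j : Fin k, r ≠ some j ∧ r' ≠ some j := by
  classical
  by_contra hcon
  push Not at hcon
  have hinj : Function.Injective (fun j : Fin k => decide (r = some j)) := by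
    intro j j' h
    simp only [decide_eq_decide] at h
    by_cases h1 : r = some j
    · have h2 := h.1 h1
      rw [h1] at h2
      exact Option.some.inj h2
    · have h2 := hcon j h1
      have h3 := hcon j' (fun h4 => h1 (h.2 h4))
      rw [h2] at h3
      exact Option.some.inj h3
  have := Fintype.card_le_of_injective _ hinj
  rw [Fintype.card_fin, Fintype.card_bool] at this
  omega

theorem not_DIAG_prod {C : (List ℕ → List ℕ) → Prop} {k : ℕ} (hk : 3 ≤ k) :
    ¬ Red C DIAG (prod CNat (ACC k)) := by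
  rintro ⟨Φ, Ψ, -, -, hΦ, hΨ, H⟩
  choose P hP1 hP2 hP3 using fun a => H (G a) (dom_G a)
  have hbeg : ∀ {F : List ℕ → List ℕ} {q r : Bai}, Maps F q r → ∀ w, Beg w q → Beg (F w) r := by
    intro F q r hF w hw
    have h1 : w = seg q w.length := hw
    rw [h1]
    exact hF.1 _
  have hB : ∀ w a, Beg w a → Beg (Φ (W G w)) (P a) := fun w a h =>
    hbeg (hP1 a) _ (hbeg (Maps_W G_loc a) _ h)
  have hBl : ∀ a n, ∃ N, ∀ N' ≥ N, n ≤ (Φ (W G (seg a N'))).length := by
    intro a n
    obtain ⟨N, hN⟩ := (((Appr_seg a).map (W_incr G_loc) (Maps_W G_loc a)).map hΦ (hP1 a)) n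
    exact ⟨N, fun N' hN' => (hN N' hN').1⟩
  -- a stable answer of the first component
  obtain ⟨π, m, hst⟩ : ∃ π m, ∀ w, π <+: w → ∀ n, (Φ (W G w))[2 * n]? ≠ some (m + 1) := by
    by_contra hcon
    push Not at hcon
    choose nx hnx1 hnx2 using hcon
    let ps : ℕ → List ℕ := fun n => Nat.rec [] (fun m w => nx w m ++ [0]) n
    have hps : ∀ n, ps (n + 1) = nx (ps n) n ++ [0] := fun n => rfl
    have h1 : ∀ n, ps n <+: ps (n + 1) := fun n => by
      rw [hps]
      exact (hnx1 _ _).trans (List.prefix_append _ _)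
    have h2 : ∀ n, n ≤ (ps n).length := by
      intro n
      induction n with
      | zero => exact Nat.zero_le _
      | succ n ih =>
        rw [hps, List.length_append]
        have := (hnx1 (ps n) n).length_le
        simp
        omega
    have h3 := lim_beg h1 h2
    obtain ⟨v, hv⟩ := hP2 (lim ps)
    obtain ⟨n, hn⟩ := hnx2 (ps (v 0)) (v 0)
    have h4 : Beg (nx (ps (v 0)) (v 0)) (lim ps) := by
      refine Beg_of_pre ?_ (h3 (v 0 + 1))
      rw [hps]
      exact List.prefix_append _ _
    exact hv.1 n (beg_get (hB _ _ h4) hn)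
  have hst' : ∀ a, Beg π a → ∀ n, P a (2 * n) ≠ m + 1 := by
    intro a ha n hn
    obtain ⟨N, hN⟩ := hBl a (2 * n + 1)
    have h1 := hN (max N π.length) (le_max_left _ _)
    have h2 : π <+: seg a (max N π.length) := by
      refine Beg_pre ha (Beg_seg _ _) ?_
      rw [seg_length]
      exact le_max_right _ _
    refine hst _ h2 n ?_
    rw [List.getElem?_eq_some_iff]
    refine ⟨by omega, ?_⟩
    rw [← hn]
    exact Beg_iff.1 (hB _ _ (Beg_seg a _)) _ (by omega)
  obtain ⟨X, hX⟩ := bnd π
  obtain ⟨x, hx⟩ : ∃ x, x = X + 2 := ⟨_, rfl⟩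
  have hxn : ∀ j, ¬ asgT (a0 π) π.length x j := by
    rintro j (h | ⟨-, -, n, hn, h1, -⟩)
    · omega
    · unfold a0 at h1
      rw [List.getD_eq_getElem _ _ hn] at h1
      have h2 := hX _ (List.getElem_mem hn)
      have h3 := Nat.left_le_pair x j
      omega
  have hval : ∀ a, Val k (fun n => P a (2 * n + 1)) := fun a => by
    obtain ⟨v, hv⟩ := hP2 a
    exact hv.2.1
  choose r hr using fun (i : Fin 2) (s : ℕ) => opt (hval (as π i s))
  obtain ⟨U, hU⟩ : ∃ U : Ultrafilter ℕ, (U : Filter ℕ) ≤ atTop :=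
    ⟨Ultrafilter.of atTop, Ultrafilter.of_le _⟩
  choose R hR using fun (i : Fin 2) (e : ℕ) => ultra_fin (fun s => r i s e) U
  choose f hf0 hf1 using fun e => avoid2 hk (R 0 e) (R 1 e)
  have hf : ∀ (i : Fin 2) e, R i e ≠ some (f e) := by
    intro i e
    fin_cases i
    · exact hf0 e
    · exact hf1 e
  have hv0 : prod CNat (ACC k) (P (a0 π)) (pair (fun _ => m) (fun e => (f e : ℕ))) := by
    unfold prod
    rw [pair_even, pair_odd]
    refine ⟨fun n => hst' _ (exists_beg π) n, hval _, fun e => ⟨(f e).2, ?_⟩⟩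
    rintro ⟨n, hn⟩
    obtain ⟨N, hN⟩ := hBl (a0 π) (2 * n + 2)
    have h1 : ∀ᶠ s in (U : Filter ℕ), N ≤ s := hU (eventually_ge_atTop N)
    obtain ⟨s, hs1, hs2⟩ := (h1.and (hR 0 e)).exists
    have h2 := hB _ _ (Beg_seg (as π ((0 : Fin 2) : ℕ) s) N)
    rw [seg_as _ _ _ (by omega)] at h2
    have h3 := hB _ _ (Beg_seg (a0 π) N)
    have h4 := hN N le_rfl
    have h5 : P (as π ((0 : Fin 2) : ℕ) s) (2 * n + 1) = P (a0 π) (2 * n + 1) := by
      rw [← Beg_iff.1 h2 (2 * n + 1) (by omega), ← Beg_iff.1 h3 (2 * n + 1) (by omega)]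
    have h6 : Rl (fun n => P (as π ((0 : Fin 2) : ℕ) s) (2 * n + 1)) e (f e) :=
      ⟨n, by show P _ (2 * n + 1) = _; rw [h5]; exact hn⟩
    have h7 := (hr 0 s e (f e)).1 h6
    rw [hs2] at h7
    exact hf 0 e h7
  obtain ⟨g, hg1, hg2⟩ := hP3 _ _ hv0
  obtain ⟨n, hn⟩ := hg1.2 (x + 1)
  have key : ∀ i : Fin 2, asgT (a0 π) π.length (g x) (1 - i) := by
    intro i
    have h1 : ∀ᶠ s in (U : Filter ℕ), n + x + g x ≤ s := hU (eventually_ge_atTop _)
    have h2 : ∀ᶠ s in (U : Filter ℕ), ∀ e : Fin n, r i s e = R i e :=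
      Filter.eventually_all.2 fun e => hR i e
    obtain ⟨s, hs1, hs2⟩ := (h1.and h2).exists
    obtain ⟨f', hf'⟩ := (hval (as π i s)).sol (by omega)
    have hv1 : prod CNat (ACC k) (P (as π i s))
        (pair (fun _ => m) (fun e => if e < n then (f e : ℕ) else f' e)) := by
      unfold prod
      rw [pair_even, pair_odd]
      refine ⟨fun n => hst' _ (beg_as π i s) n, hval _, fun e => ?_⟩
      by_cases he : e < n
      · simp only [if_pos he]
        refine ⟨(f e).2, fun h3 => ?_⟩
        have h4 := (hr i s e (f e)).1 h3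
        rw [hs2 ⟨e, he⟩] at h4
        exact hf i e h4
      · simp only [if_neg he]
        exact ⟨lt_of_lt_of_le (hf' e).1 (by omega), (hf' e).2⟩
    obtain ⟨g', hg1', hg2'⟩ := hP3 _ _ hv1
    have h3 : seg (pair (G (as π i s))
        (pair (fun _ => m) (fun e => if e < n then (f e : ℕ) else f' e))) n =
        seg (pair (G (a0 π)) (pair (fun _ => m) (fun e => (f e : ℕ)))) n := by
      apply seg_ext
      intro j hj
      unfold pair
      split
      · apply G_loc
        intro l hl
        exact seg_inj (seg_as π i s (n := n) (by omega)) l (by omega)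
      · split
        · rfl
        · show (if j / 2 / 2 < n then (f (j / 2 / 2) : ℕ) else f' (j / 2 / 2)) =
            (f (j / 2 / 2) : ℕ)
          rw [if_pos (by omega)]
    have h4 := hg1'.1 n
    rw [h3] at h4
    have h5 : g' x = g x := by
      rw [← Beg_iff.1 h4 x (by omega), ← Beg_iff.1 (hg1.1 n) x (by omega)]
    have h6 := hg2'.2.2 x
    rw [h5] at h6
    by_contra hcon
    obtain ⟨t1, h7⟩ := as_asg i.2 (show g x ≤ s by omega) hcon
    obtain ⟨t2, h8⟩ := as_asg i.2 (show x ≤ s by omega) (hxn (1 - i))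
    apply h6
    rw [Rl_G]
    exact Or.inr ⟨max t1 t2, i, asgT_mono (le_max_left _ _) h7, asgT_mono (le_max_right _ _) h8⟩
  have h1 := asgT_unique (key 0) (key 1)
  simp at h1

end

end Pool.Agent.R575.DG
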