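import Pool.Agent.R575.DG.Sep

/-!
The product of choice on the natural numbers with `DNC_k` is not reducible to `DIAG`.
-/

namespace Pool.Agent.R575.DG

open Pool.Agent.R575.WC Filter

noncomputable section

/-- general form of the non-reducibility, with a translation of the solutions -/
theorem not_red_abs2 {C : (List ℕ → List ℕ) → Prop} {X : Prob} {k : ℕ} (hk : 2 ≤ k)
    {Tr Po : List ℕ → List ℕ} (hTr : Incr Tr) (hPo : Incr Po)
    (hX : ∀ p, Val k p → ∃ p', Maps Tr p p' ∧ (∃ f, X p' f) ∧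
      ∀ f, X p' f → ∃ f', Maps Po f f' ∧ ∀ e, f' e < k ∧ ¬ Rl p e (f' e)) : ¬ Red C X DIAG := by
  rintro ⟨Φ, Ψ, -, -, hΦ, hΨ, H⟩
  refine core hk (A := fun w => Φ (Tr w)) (Θ := fun w σ => Po (Ψ (pairW (Tr w) σ)))
    (fun u v huv => hΦ _ _ (hTr _ _ huv))
    (fun w w' σ hw => hPo _ _ (hΨ _ _ (pairW_mono (hTr _ _ hw) List.prefix_rfl))) ?_
  intro p hp
  obtain ⟨p', hp1, hp2, hp3⟩ := hX p hp
  obtain ⟨u, hu1, hu2, hu3⟩ := H p' hp2
  have a1 : Appr (fun n => Tr (seg p n)) p' := (Appr_seg p).map hTr hp1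
  have hbeg : ∀ {F : List ℕ → List ℕ} {q r : Bai}, Maps F q r → ∀ w, Beg w q → Beg (F w) r := by
    intro F q r hF w hw
    have h1 : w = seg q w.length := hw
    rw [h1]
    exact hF.1 _
  have hun : ∀ {w : ℕ → List ℕ} {r : Bai}, Appr w r → ∀ m, ∃ n, m ≤ (w n).length := by
    intro w r h m
    obtain ⟨n0, hn0⟩ := h m
    exact ⟨n0, (hn0 n0 le_rfl).1⟩
  refine ⟨u, ⟨fun n => hbeg hu1 _ (hp1.1 n), hun (a1.map hΦ hu1)⟩, hu2, fun v hv => ?_⟩
  obtain ⟨r, hr1, hr2⟩ := hu3 v hv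
  obtain ⟨r', hr1', hr2'⟩ := hp3 r hr2
  refine ⟨r', ?_, ?_, hr2'⟩
  · intro w σ hw hσ
    exact hbeg hr1' _ (hbeg hr1 _ (pairW_beg (hbeg hp1 _ hw) hσ))
  · exact hun (((a1.pair (Appr_seg v)).map hΨ hr1).map hPo hr1')

/-- the entries at the odd positions -/
def odds (w : List ℕ) : List ℕ := seg (fun n => w.getD (2 * n + 1) 0) (w.length / 2)

theorem odds_beg {w : List ℕ} {f : Bai} (h : Beg w f) :
    odds w = seg (fun n => f (2 * n + 1)) (w.length / 2) := by
  unfold odds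
  apply seg_ext
  intro i hi
  show w.getD (2 * i + 1) 0 = f (2 * i + 1)
  rw [List.getD_eq_getElem _ _ (by omega)]
  exact Beg_iff.1 h _ _

theorem odds_incr : Incr odds := by
  intro u v huv
  have h1 := exists_beg v
  rw [odds_beg (Beg_of_pre huv h1), odds_beg h1]
  apply seg_le
  have := huv.length_le
  omega

theorem Maps_odds (f : Bai) : Maps odds f (fun n => f (2 * n + 1)) := by
  constructor
  · intro n
    rw [odds_beg (Beg_seg f n)]
    exact Beg_seg _ _
  · intro k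
    refine ⟨2 * k, ?_⟩
    rw [odds_beg (Beg_seg f _), seg_length, seg_length]
    omega

/-- The product of choice on the natural numbers with `DNC_k` is not reducible to `DIAG`. -/
theorem not_prod_DIAG {C : (List ℕ → List ℕ) → Prop} {k : ℕ} (hk : 2 ≤ k) :
    ¬ Red C (prod CNat (ACC k)) DIAG := by
  have hloc : Loc (fun p => pair (fun _ => 0) p) := by
    intro p q n h
    show (if n % 2 = 0 then (0 : ℕ) else p (n / 2)) = (if n % 2 = 0 then (0 : ℕ) else q (n / 2))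
    split
    · rfl
    · exact h _ (by omega)
  refine not_red_abs2 hk (W_incr hloc) odds_incr ?_
  intro p hp
  refine ⟨_, Maps_W hloc p, ?_, ?_⟩
  · obtain ⟨f, hf⟩ := hp.sol hk
    refine ⟨pair (fun _ => 0) f, ?_⟩
    unfold prod
    rw [pair_even, pair_odd, pair_even, pair_odd]
    refine ⟨fun n hn => ?_, hp, fun e => ⟨lt_of_lt_of_le (hf e).1 hk, (hf e).2⟩⟩
    have : (0 : ℕ) = 0 + 1 := hn
    omega
  · rintro f ⟨-, hf⟩
    rw [pair_odd] at hf
    exact ⟨_, Maps_odds f, hf.2⟩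

end

end Pool.Agent.R575.DG
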