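import Pool.Agent.R575.DG.Pos

/-!
`DIAG` is reducible to the product of choice on the natural numbers and `DNC_2`.
-/

namespace Pool.Agent.R575.DG

open Pool.Agent.R575.WC

/-- The product of two problems: solve an instance of each of them. -/
def prod (f g : Prob) : Prob := fun p q =>
  f (fun n => p (2 * n)) (fun n => q (2 * n)) ∧ g (fun n => p (2 * n + 1)) (fun n => q (2 * n + 1))

theorem pair_even (p q : Bai) : (fun n => pair p q (2 * n)) = p := by
  funext n
  unfold pair
  rw [if_pos (by omega)]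
  congr 1
  omega

theorem pair_odd (p q : Bai) : (fun n => pair p q (2 * n + 1)) = q := by
  funext n
  unfold pair
  rw [if_neg (by omega)]
  congr 1
  omega

/-- `a` occurs before position `t` with no earlier `b` -/
def evt (u : Bai) (t a b : ℕ) : Prop := ∃ i < t, u i = a ∧ ¬ hit u i b

instance (u : Bai) (t a b : ℕ) : Decidable (evt u t a b) := by unfold evt; infer_instance

theorem evt_congr {p q : Bai} {n t a b : ℕ} (h : ∀ i ≤ n, p i = q i) (ht : t ≤ n) :
    evt p t a b ↔ evt q t a b := by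
  unfold evt
  constructor
  · rintro ⟨i, h1, h2, h3⟩
    exact ⟨i, h1, by rw [← h i (by omega)]; exact h2,
      fun h4 => h3 ((hit_congr h (by omega)).2 h4)⟩
  · rintro ⟨i, h1, h2, h3⟩
    exact ⟨i, h1, by rw [h i (by omega)]; exact h2,
      fun h4 => h3 ((hit_congr h (by omega)).1 h4)⟩

theorem evt_prim {α : Type*} [Primcodable α] {f : α → List ℕ} {g h k : α → ℕ} (hf : Primrec f)
    (hg : Primrec g) (hh : Primrec h) (hk : Primrec k) :
    PrimrecPred fun x => evt (fun i => (f x).getD i 0) (g x) (h x) (k x) := by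
  have h1 : PrimrecRel fun (i : ℕ) (y : List ℕ × ℕ × ℕ) =>
      y.1.getD i 0 = y.2.1 ∧ ¬ hit (fun i => y.1.getD i 0) i y.2.2 := by
    have e1 : PrimrecPred fun x : ℕ × List ℕ × ℕ × ℕ => x.2.1.getD x.1 0 = x.2.2.1 :=
      Primrec.eq.comp ((Primrec.list_getD 0).comp (Primrec.fst.comp Primrec.snd) Primrec.fst)
        (Primrec.fst.comp (Primrec.snd.comp Primrec.snd))
    have e2 : PrimrecPred fun x : ℕ × List ℕ × ℕ × ℕ =>
        hit (fun i => x.2.1.getD i 0) x.1 x.2.2.2 :=
      hit_prim (Primrec.fst.comp Primrec.snd) Primrec.fst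
        (Primrec.snd.comp (Primrec.snd.comp Primrec.snd))
    exact e1.and e2.not
  exact (h1.exists_mem_list.comp (Primrec.list_range.comp hg) (hf.pair (hh.pair hk))).of_eq
    fun x => by simp [evt]

/-- the instance of `DNC_2` -/
def F2 (u : Bai) : Bai := fun n =>
  if evt u n.unpair.2 (Nat.pair n.unpair.1.unpair.2 n.unpair.1.unpair.1.unpair.1 + 1)
      (Nat.pair n.unpair.1.unpair.2 n.unpair.1.unpair.1.unpair.2 + 1) then
    Nat.pair n.unpair.1 0 + 1
  else if evt u n.unpair.2 (Nat.pair n.unpair.1.unpair.2 n.unpair.1.unpair.1.unpair.2 + 1)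
      (Nat.pair n.unpair.1.unpair.2 n.unpair.1.unpair.1.unpair.1 + 1) then
    Nat.pair n.unpair.1 1 + 1
  else 0

/-- the instance of the product -/
def F3 (u : Bai) : Bai := pair u (F2 u)

theorem F2_loc : Loc F2 := by
  intro p q n h
  have a2 : n.unpair.2 ≤ n := Nat.unpair_right_le n
  unfold F2
  simp only [evt_congr h a2]

theorem F3_loc : Loc F3 := by
  intro p q n h
  unfold F3 pair
  split
  · exact h _ (by omega)
  · exact F2_loc p q _ fun i hi => h i (by omega)

theorem F2_prim {α : Type*} [Primcodable α] {f : α → List ℕ} {g : α → ℕ} (hf : Primrec f)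
    (hg : Primrec g) : Primrec fun x => F2 (fun i => (f x).getD i 0) (g x) := by
  unfold F2
  have e1 : Primrec fun x => (g x).unpair.1 := Primrec.fst.comp (Primrec.unpair.comp hg)
  have e2 : Primrec fun x => (g x).unpair.2 := Primrec.snd.comp (Primrec.unpair.comp hg)
  have eab := Primrec.fst.comp (Primrec.unpair.comp e1)
  have ex := Primrec.snd.comp (Primrec.unpair.comp e1)
  have ea := Primrec.fst.comp (Primrec.unpair.comp eab)
  have eb := Primrec.snd.comp (Primrec.unpair.comp eab)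
  have c1 := Primrec.succ.comp (Primrec₂.natPair.comp ex ea)
  have c2 := Primrec.succ.comp (Primrec₂.natPair.comp ex eb)
  have o0 := Primrec.succ.comp (Primrec₂.natPair.comp e1 (Primrec.const 0))
  have o1 := Primrec.succ.comp (Primrec₂.natPair.comp e1 (Primrec.const 1))
  exact Primrec.ite (evt_prim hf e2 c1 c2) o0
    (Primrec.ite (evt_prim hf e2 c2 c1) o1 (Primrec.const 0))

theorem F3_prim : Primrec₂ fun (w : List ℕ) (n : ℕ) => F3 (fun i => w.getD i 0) n := by
  unfold F3 pair
  have h2 : Primrec fun x : List ℕ × ℕ => x.2 / 2 :=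
    Primrec.nat_div.comp Primrec.snd (Primrec.const 2)
  have h3 : Primrec fun x : List ℕ × ℕ => x.2 % 2 :=
    Primrec.nat_mod.comp Primrec.snd (Primrec.const 2)
  exact Primrec.ite (Primrec.eq.comp h3 (Primrec.const 0))
    ((Primrec.list_getD 0).comp Primrec.fst h2) (F2_prim Primrec.fst h2)

theorem F2_zero {u : Bai} {e : ℕ} (h : Rl (F2 u) e 0) :
    ∃ i, u i = Nat.pair e.unpair.2 e.unpair.1.unpair.1 + 1 ∧
      ¬ hit u i (Nat.pair e.unpair.2 e.unpair.1.unpair.2 + 1) := by
  obtain ⟨n, hn⟩ := h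
  unfold F2 at hn
  split at hn
  · rename_i h1
    have h2 : Nat.pair n.unpair.1 0 = Nat.pair e 0 := by omega
    rw [(Nat.pair_eq_pair.1 h2).1] at h1
    obtain ⟨i, -, h3, h4⟩ := h1
    exact ⟨i, h3, h4⟩
  · split at hn
    · have h2 : Nat.pair n.unpair.1 1 = Nat.pair e 0 := by omega
      have := (Nat.pair_eq_pair.1 h2).2
      omega
    · omega

theorem F2_one {u : Bai} {e : ℕ} (h : Rl (F2 u) e 1) :
    ∃ t, ¬ evt u t (Nat.pair e.unpair.2 e.unpair.1.unpair.1 + 1)
      (Nat.pair e.unpair.2 e.unpair.1.unpair.2 + 1) ∧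
      evt u t (Nat.pair e.unpair.2 e.unpair.1.unpair.2 + 1)
        (Nat.pair e.unpair.2 e.unpair.1.unpair.1 + 1) := by
  obtain ⟨n, hn⟩ := h
  unfold F2 at hn
  split at hn
  · have h2 : Nat.pair n.unpair.1 0 = Nat.pair e 1 := by omega
    have := (Nat.pair_eq_pair.1 h2).2
    omega
  · rename_i h1
    split at hn
    · rename_i h3
      have h2 : Nat.pair n.unpair.1 1 = Nat.pair e 1 := by omega
      rw [(Nat.pair_eq_pair.1 h2).1] at h1 h3
      exact ⟨_, h1, h3⟩
    · omega

theorem F2_val (u : Bai) : Val 2 (F2 u) := by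
  have key : ∀ e, Rl (F2 u) e 0 → Rl (F2 u) e 1 → False := by
    intro e h0 h1
    obtain ⟨j, hj1, hj2⟩ := F2_zero h0
    obtain ⟨t, h2, i, hi, hi1, hi2⟩ := F2_one h1
    rcases lt_trichotomy i j with h | h | h
    · exact hj2 ⟨i, h, hi1⟩
    · subst h
      exact h2 ⟨i, hi, hj1, hj2⟩
    · exact hi2 ⟨j, h, hj1⟩
  intro e i j hi hj h1 h2
  have hi' : i = 0 ∨ i = 1 := by omega
  have hj' : j = 0 ∨ j = 1 := by omega
  rcases hi' with rfl | rfl <;> rcases hj' with rfl | rfl
  · rfl
  · exact (key e h1 h2).elim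
  · exact (key e h2 h1).elim
  · rfl

/-- decoding -/
def gg (z : Bai) : Bai := fun x =>
  if z (4 * Nat.pair (z 1) x + 3) = 0 then (z 1).unpair.1 else (z 1).unpair.2

/-- decoding, on words -/
def Psi (w : List ℕ) : List ℕ :=
  ((List.range w.length).filter
    (fun x => decide (4 * Nat.pair (w.getD 1 0) x + 3 < w.length))).map (fun x =>
      if w.getD (4 * Nat.pair (w.getD 1 0) x + 3) 0 = 0 then (w.getD 1 0).unpair.1
      else (w.getD 1 0).unpair.2)

theorem filt {P : ℕ → Prop} [DecidablePred P] (hP : ∀ x y, x ≤ y → P y → P x) (L : ℕ) :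
    ∃ N, (List.range L).filter (fun x => decide (P x)) = List.range N ∧
      ∀ x, x < N ↔ x < L ∧ P x := by
  induction L with
  | zero => exact ⟨0, rfl, fun x => by omega⟩
  | succ L ih =>
    obtain ⟨N, h1, h2⟩ := ih
    rw [List.range_succ, List.filter_append, h1]
    by_cases h3 : P L
    · have h4 : N = L := by
        rcases lt_trichotomy N L with h | h | h
        · exact absurd ((h2 N).2 ⟨h, hP _ _ h.le h3⟩) (lt_irrefl _)
        · exact h
        · exact absurd ((h2 L).1 h).1 (lt_irrefl _)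
      subst h4
      refine ⟨N + 1, ?_, fun x => ?_⟩
      · rw [List.range_succ]
        simp [h3]
      · constructor
        · intro h
          exact ⟨h, hP x N (by omega) h3⟩
        · exact fun h => h.1
    · refine ⟨N, ?_, fun x => ?_⟩
      · simp [h3]
      · rw [h2]
        constructor
        · rintro ⟨h4, h5⟩
          exact ⟨by omega, h5⟩
        · rintro ⟨h4, h5⟩
          refine ⟨?_, h5⟩
          rcases Nat.lt_succ_iff_lt_or_eq.1 h4 with h | h
          · exact h
          · rw [h] at h5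
            exact absurd h5 h3

theorem Psi_eq {w : List ℕ} {z : Bai} (h : Beg w z) : ∃ N, Psi w = seg (gg z) N ∧
    ∀ x, x < N ↔ x < w.length ∧ 4 * Nat.pair (z 1) x + 3 < w.length := by
  by_cases hl : w.length ≤ 1
  · refine ⟨0, ?_, fun x => by omega⟩
    unfold Psi
    rw [seg_zero, List.map_eq_nil_iff, List.filter_eq_nil_iff]
    intro a _
    simp
    omega
  · have h1 : w.getD 1 0 = z 1 := by
      rw [List.getD_eq_getElem _ _ (by omega)]
      exact Beg_iff.1 h 1 _
    obtain ⟨N, h2, h3⟩ := filt (P := fun x => 4 * Nat.pair (z 1) x + 3 < w.length)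
      (fun x y hxy hy => by
        have : Nat.pair (z 1) x ≤ Nat.pair (z 1) y := by
          rcases hxy.lt_or_eq with h4 | h4
          · exact (Nat.pair_lt_pair_right _ h4).le
          · rw [h4]
        omega) w.length
    refine ⟨N, ?_, h3⟩
    unfold Psi
    rw [h1, h2]
    unfold seg
    apply List.map_congr_left
    intro x hx
    rw [List.mem_range] at hx
    have h4 := ((h3 x).1 hx).2
    have h5 : w.getD (4 * Nat.pair (z 1) x + 3) 0 = z (4 * Nat.pair (z 1) x + 3) := by
      rw [List.getD_eq_getElem _ _ h4]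
      exact Beg_iff.1 h _ _
    unfold gg
    rw [h5]

theorem Psi_incr : Incr Psi := by
  intro u v huv
  have h1 := exists_beg v
  obtain ⟨N, hN1, hN2⟩ := Psi_eq (Beg_of_pre huv h1)
  obtain ⟨M, hM1, hM2⟩ := Psi_eq h1
  rw [hN1, hM1]
  apply seg_le
  rcases Nat.eq_zero_or_pos N with h | h
  · omega
  · have h2 := (hN2 (N - 1)).1 (by omega)
    have h3 := huv.length_le
    have h4 := (hM2 (N - 1)).2 ⟨by omega, by omega⟩
    omega

theorem Maps_Psi (z : Bai) : Maps Psi z (gg z) := by
  constructor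
  · intro n
    obtain ⟨N, hN1, -⟩ := Psi_eq (Beg_seg z n)
    rw [hN1]
    exact Beg_seg _ _
  · intro k
    refine ⟨4 * Nat.pair (z 1) k + 4, ?_⟩
    obtain ⟨N, hN1, hN2⟩ := Psi_eq (Beg_seg z (4 * Nat.pair (z 1) k + 4))
    rw [hN1, seg_length]
    have h1 := Nat.right_le_pair (z 1) k
    have h2 := (hN2 k).2 ⟨by rw [seg_length]; omega, by rw [seg_length]; omega⟩
    omega

theorem Psi_computable : Computable Psi := by
  apply Primrec.to_comp
  unfold Psi
  have r1 : PrimrecRel fun (x : ℕ) (w : List ℕ) =>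
      4 * Nat.pair (w.getD 1 0) x + 3 < w.length := by
    have e1 : Primrec fun y : ℕ × List ℕ => y.2.getD 1 0 :=
      (Primrec.list_getD 0).comp Primrec.snd (Primrec.const 1)
    have e2 := Primrec₂.natPair.comp e1 Primrec.fst
    have e3 := Primrec.nat_add.comp (Primrec.nat_mul.comp (Primrec.const 4) e2) (Primrec.const 3)
    exact Primrec.nat_lt.comp e3 (Primrec.list_length.comp Primrec.snd)
  have r2 := r1.listFilter.comp (Primrec.list_range.comp Primrec.list_length) Primrec.id
  refine Primrec.list_map r2 ?_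
  have e1 : Primrec fun y : List ℕ × ℕ => y.1.getD 1 0 :=
    (Primrec.list_getD 0).comp Primrec.fst (Primrec.const 1)
  have e2 := Primrec₂.natPair.comp e1 Primrec.snd
  have e3 := Primrec.nat_add.comp (Primrec.nat_mul.comp (Primrec.const 4) e2) (Primrec.const 3)
  have e4 := (Primrec.list_getD 0).comp Primrec.fst e3
  exact Primrec.ite (Primrec.eq.comp e4 (Primrec.const 0))
    (Primrec.fst.comp (Primrec.unpair.comp e1)) (Primrec.snd.comp (Primrec.unpair.comp e1))

/-- `DIAG` is reducible to the product of choice on the natural numbers and `DNC_2`. -/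
theorem DIAG_le : WRed DIAG (prod CNat (ACC 2)) := by
  refine ⟨W F3, Psi, W_computable F3_prim, Psi_computable, W_incr F3_loc, Psi_incr, ?_⟩
  rintro u ⟨g0, hE, ⟨a, b, hab⟩, -⟩
  refine ⟨F3 u, Maps_W F3_loc u, ?_, ?_⟩
  · obtain ⟨f, hf⟩ := (F2_val u).sol le_rfl
    refine ⟨pair (fun _ => Nat.pair a b) f, ?_⟩
    unfold prod F3
    rw [pair_even, pair_odd, pair_even, pair_odd]
    refine ⟨?_, F2_val u, hf⟩
    intro n hn
    exact hab ⟨n, hn⟩
  · rintro v ⟨hv1, hv2⟩
    unfold F3 at hv1 hv2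
    rw [pair_even] at hv1
    rw [pair_odd] at hv2
    refine ⟨_, Maps_Psi _, hE, ⟨a, b, hab⟩, fun x => ?_⟩
    have z1 : pair u v 1 = v 0 := rfl
    have z2 : ∀ k, pair u v (4 * k + 3) = v (2 * k + 1) := by
      intro k
      unfold pair
      rw [if_neg (by omega)]
      congr 1
      omega
    unfold gg
    rw [z1, z2]
    have hc : ¬ Rl u (v 0).unpair.1 (v 0).unpair.2 := by
      rintro ⟨n, hn⟩
      rw [Nat.pair_unpair] at hn
      exact hv1 n hn
    obtain ⟨h1, h2⟩ := hv2.2 (Nat.pair (v 0) x)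
    have hev : ∀ t, F2 u (Nat.pair (Nat.pair (v 0) x) t) =
        if evt u t (Nat.pair x (v 0).unpair.1 + 1) (Nat.pair x (v 0).unpair.2 + 1) then
          Nat.pair (Nat.pair (v 0) x) 0 + 1
        else if evt u t (Nat.pair x (v 0).unpair.2 + 1) (Nat.pair x (v 0).unpair.1 + 1) then
          Nat.pair (Nat.pair (v 0) x) 1 + 1
        else 0 := by
      intro t
      unfold F2
      simp only [Nat.unpair_pair]
    by_cases h0 : v (2 * Nat.pair (v 0) x + 1) = 0
    · rw [if_pos h0]
      intro h3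
      obtain ⟨i, hi⟩ := hE.symm h3
      have hnb : ∀ j, u j ≠ Nat.pair x (v 0).unpair.2 + 1 := fun j hj =>
        hc (hE.trans h3 ⟨j, hj⟩)
      have h4 : evt u (i + 1) (Nat.pair x (v 0).unpair.1 + 1)
          (Nat.pair x (v 0).unpair.2 + 1) :=
        ⟨i, by omega, hi, fun ⟨j, _, hj⟩ => hnb j hj⟩
      apply h2
      show Rl (F2 u) (Nat.pair (v 0) x) (v (2 * Nat.pair (v 0) x + 1))
      rw [h0]
      exact ⟨_, by rw [hev (i + 1), if_pos h4]⟩
    · rw [if_neg h0]
      intro h3
      obtain ⟨i, hi⟩ := hE.symm h3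
      have hna : ∀ j, u j ≠ Nat.pair x (v 0).unpair.1 + 1 := fun j hj =>
        hc (hE.symm (hE.trans h3 ⟨j, hj⟩))
      have h4 : evt u (i + 1) (Nat.pair x (v 0).unpair.2 + 1)
          (Nat.pair x (v 0).unpair.1 + 1) :=
        ⟨i, by omega, hi, fun ⟨j, _, hj⟩ => hna j hj⟩
      have h5 : ¬ evt u (i + 1) (Nat.pair x (v 0).unpair.1 + 1)
          (Nat.pair x (v 0).unpair.2 + 1) := fun ⟨j, _, hj, _⟩ => hna j hj
      have h6 : v (2 * Nat.pair (v 0) x + 1) = 1 := by
        have : v (2 * Nat.pair (v 0) x + 1) < 2 := h1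
        omega
      apply h2
      show Rl (F2 u) (Nat.pair (v 0) x) (v (2 * Nat.pair (v 0) x + 1))
      rw [h6]
      exact ⟨_, by rw [hev (i + 1), if_neg h5, if_pos h4]⟩

end Pool.Agent.R575.DG
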